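import Pool.Agent.Lib.MP_4eed4e_an_PC.CBase

set_option autoImplicit false

/-!
Project P, block C, module CForm: `en` and `l2` as quadratic forms on finite dimensional spaces.

* `en_nonneg`, `l2_nonneg`: integrals of nonnegative functions.
* `sqrt_en_add`: Minkowski's inequality in `L²(ℝ²; ℝ²)` for the gradients of two Lipschitz functions with
  compact support (the gradients are bounded, measurable, with compact support, hence in `L²`;
  `d1 (f + g) = d1 f + d1 g` almost everywhere). E.g. prove Cauchy-Schwarz for the bilinear form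
  `B f g = ∫ d1 f d1 g + d2 f d2 g` from `en (f + t g) ≥ 0` for all `t`. The same for `l2`.
* `en_smul`, `l2_smul`: clear.
* `l2_pos`: a continuous function which is not zero is nonzero on an open set of positive measure.
* `exists_coef_bound`: `x ↦ √(l2 (∑ x i • f i))` is continuous on `Fin k → ℝ` (by `sqrt_l2_add` it is
  Lipschitz), positive on the unit sphere by linear independence, homogeneous; the unit sphere of
  `Fin k → ℝ` is compact, take the minimum `c > 0` there (`k = 0` is trivial): `‖x‖ c ≤ √(l2 ..)` and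
  `∑ |x i| ≤ k ‖x‖`.
-/

namespace Pool.Agent.MP4eed4eP

open MeasureTheory Set Filter Topology

/-- bounded measurable functions with compact support are integrable -/
private theorem CForm_int {h : P → ℝ} (hm : Measurable h) {C : ℝ} (hb : ∀ x, |h x| ≤ C)
    (hc : HasCompactSupport h) : Integrable h := by
  have h1 : IntegrableOn h (tsupport h) :=
    Measure.integrableOn_of_bounded hc.isCompact.measure_lt_top.ne hm.aestronglyMeasurable
      (M := C) (Eventually.of_forall fun x => by rw [Real.norm_eq_abs]; exact hb x)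
  rwa [integrableOn_iff_integrable_of_support_subset (subset_tsupport h)] at h1

private theorem CForm_three {u v w : P → ℝ} (hu : Integrable u) (hv : Integrable v)
    (hw : Integrable w) (a b : ℝ) : (∫ y, (u y + a * v y + b * w y)) =
      (∫ y, u y) + a * (∫ y, v y) + b * ∫ y, w y := by
  have h1 : Integrable (fun y => u y + a * v y) := hu.add (hv.const_mul a)
  have h2 : Integrable (fun y => a * v y) := hv.const_mul a
  have h3 : Integrable (fun y => b * w y) := hw.const_mul b
  rw [integral_add h1 h3, integral_add hu h2, integral_const_mul, integral_const_mul]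

/-- Minkowski's inequality from a pointwise discriminant condition -/
private theorem CForm_mink {u v w : P → ℝ} (hu : Integrable u) (hv : Integrable v)
    (hw : Integrable w) (hw0 : ∀ y, 0 ≤ w y)
    (h : ∀ t : ℝ, ∀ y, 0 ≤ u y + 2 * t * v y + t ^ 2 * w y) :
    √((∫ y, u y) + 2 * (∫ y, v y) + 1 * ∫ y, w y) ≤ √(∫ y, u y) + √(∫ y, w y) := by
  have h1 : ∀ t : ℝ, 0 ≤ (∫ y, w y) * (t * t) + 2 * (∫ y, v y) * t + ∫ y, u y := by
    intro t
    have h2 : 0 ≤ ∫ y, (u y + 2 * t * v y + t ^ 2 * w y) := integral_nonneg fun y => h t y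
    rw [CForm_three hu hv hw] at h2
    linarith
  have h3 := discrim_le_zero h1
  unfold discrim at h3
  have hU : 0 ≤ ∫ y, u y := integral_nonneg fun y => by
    have := h 0 y
    simpa using this
  have hW : 0 ≤ ∫ y, w y := integral_nonneg hw0
  have h8 : (∫ y, v y) ≤ √(∫ y, u y) * √(∫ y, w y) := by
    rw [← Real.sqrt_mul hU]
    refine Real.le_sqrt_of_sq_le ?_
    linarith
  refine Real.sqrt_le_iff.2 ⟨by positivity, ?_⟩
  linarith [Real.sq_sqrt hU, Real.sq_sqrt hW,
    add_sq (√(∫ y, u y)) (√(∫ y, w y))]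

theorem en_nonneg (f : P → ℝ) : 0 ≤ en f := by
  exact integral_nonneg fun x => by positivity

theorem l2_nonneg (f : P → ℝ) : 0 ≤ l2 f := by
  exact integral_nonneg fun x => by positivity

theorem en_smul (r : ℝ) (f : P → ℝ) : en (r • f) = r ^ 2 * en f := by
  unfold en
  rw [← integral_const_mul]
  refine integral_congr_ae (Eventually.of_forall fun x => ?_)
  show d1 (r • f) x ^ 2 + d2 (r • f) x ^ 2 = r ^ 2 * (d1 f x ^ 2 + d2 f x ^ 2)
  rw [d1_smul, d2_smul]
  ring

theorem l2_smul (r : ℝ) (f : P → ℝ) : l2 (r • f) = r ^ 2 * l2 f := by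
  unfold l2
  rw [← integral_const_mul]
  refine integral_congr_ae (Eventually.of_forall fun x => ?_)
  show (r • f) x ^ 2 = r ^ 2 * f x ^ 2
  rw [Pi.smul_apply, smul_eq_mul]
  ring

theorem sqrt_en_add {D : Set P} {f g : P → ℝ} (hf : LipC D f) (hg : LipC D g) :
    √(en (f + g)) ≤ √(en f) + √(en g) := by
  obtain ⟨K, hK⟩ := hf.1
  obtain ⟨K', hK'⟩ := hg.1
  have e1 : ∀ {a b : P → ℝ} {A B : ℝ}, Measurable a → Measurable b → (∀ x, |a x| ≤ A) →
      (∀ x, |b x| ≤ B) → HasCompactSupport a → Integrable (fun x => a x * b x) := by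
    intro a b A B ha hb hA hB hc
    refine CForm_int (C := A * B) (ha.mul hb) (fun x => ?_) hc.mul_right
    rw [abs_mul]
    exact mul_le_mul (hA x) (hB x) (abs_nonneg _) ((abs_nonneg _).trans (hA x))
  have i1 := e1 (measurable_d1 f) (measurable_d1 f) (abs_d1_le hK) (abs_d1_le hK) hf.compact_d1
  have i2 := e1 (measurable_d2 f) (measurable_d2 f) (abs_d2_le hK) (abs_d2_le hK) hf.compact_d2
  have j1 := e1 (measurable_d1 g) (measurable_d1 g) (abs_d1_le hK') (abs_d1_le hK') hg.compact_d1
  have j2 := e1 (measurable_d2 g) (measurable_d2 g) (abs_d2_le hK') (abs_d2_le hK') hg.compact_d2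
  have k1 := e1 (measurable_d1 f) (measurable_d1 g) (abs_d1_le hK) (abs_d1_le hK') hf.compact_d1
  have k2 := e1 (measurable_d2 f) (measurable_d2 g) (abs_d2_le hK) (abs_d2_le hK') hf.compact_d2
  have hmain := CForm_mink (i1.add i2) (k1.add k2) (j1.add j2)
    (fun y => add_nonneg (mul_self_nonneg _) (mul_self_nonneg _)) (fun t y => by
    simp only [Pi.add_apply]
    linarith [sq_nonneg (d1 f y + t * d1 g y), sq_nonneg (d2 f y + t * d2 g y),
      add_sq (d1 f y) (t * d1 g y), add_sq (d2 f y) (t * d2 g y),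
      mul_pow t (d1 g y) 2, mul_pow t (d2 g y) 2])
  have hU : (∫ y, ((fun x => d1 f x * d1 f x) + fun x => d2 f x * d2 f x) y) = en f := by
    unfold en
    refine integral_congr_ae (Eventually.of_forall fun x => ?_)
    simp only [Pi.add_apply]
    ring
  have hW : (∫ y, ((fun x => d1 g x * d1 g x) + fun x => d2 g x * d2 g x) y) = en g := by
    unfold en
    refine integral_congr_ae (Eventually.of_forall fun x => ?_)
    simp only [Pi.add_apply]
    ring
  have hS : en (f + g) = (∫ y, ((fun x => d1 f x * d1 f x) + fun x => d2 f x * d2 f x) y) +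
      2 * (∫ y, ((fun x => d1 f x * d1 g x) + fun x => d2 f x * d2 g x) y) +
      1 * ∫ y, ((fun x => d1 g x * d1 g x) + fun x => d2 g x * d2 g x) y := by
    rw [← CForm_three (i1.add i2) (k1.add k2) (j1.add j2)]
    unfold en
    refine integral_congr_ae ?_
    filter_upwards [hf.ae_diff, hg.ae_diff] with x hx hx'
    simp only [Pi.add_apply]
    rw [d1_add hx hx', d2_add hx hx']
    ring
  rw [hS, ← hU, ← hW]
  exact hmain

theorem sqrt_l2_add {D : Set P} {f g : P → ℝ} (hf : LipC D f) (hg : LipC D g) :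
    √(l2 (f + g)) ≤ √(l2 f) + √(l2 g) := by
  have e1 : ∀ {a b : P → ℝ}, LipC D a → LipC D b → Integrable (fun x => a x * b x) :=
    fun ha hb => (ha.continuous.mul hb.continuous).integrable_of_hasCompactSupport
      ha.2.1.mul_right
  have hmain := CForm_mink (e1 hf hf) (e1 hf hg) (e1 hg hg) (fun y => mul_self_nonneg _)
    (fun t y => by
    linarith [sq_nonneg (f y + t * g y), add_sq (f y) (t * g y), mul_pow t (g y) 2])
  have hU : (∫ y, f y * f y) = l2 f := by
    unfold l2
    exact integral_congr_ae (Eventually.of_forall fun x => (sq (f x)).symm)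
  have hW : (∫ y, g y * g y) = l2 g := by
    unfold l2
    exact integral_congr_ae (Eventually.of_forall fun x => (sq (g x)).symm)
  have hS : l2 (f + g) = (∫ y, f y * f y) + 2 * (∫ y, f y * g y) + 1 * ∫ y, g y * g y := by
    rw [← CForm_three (e1 hf hf) (e1 hf hg) (e1 hg hg)]
    unfold l2
    refine integral_congr_ae (Eventually.of_forall fun x => ?_)
    simp only [Pi.add_apply]
    ring
  rw [hS, ← hU, ← hW]
  exact hmain

theorem l2_pos {D : Set P} {f : P → ℝ} (hf : LipC D f) (h : f ≠ 0) : 0 < l2 f := by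
  obtain ⟨x, hx⟩ := Function.ne_iff.1 h
  unfold l2
  refine Continuous.integral_pos_of_hasCompactSupport_nonneg_nonzero (x := x)
    (hf.continuous.pow 2) ?_ (fun y => sq_nonneg (f y)) (pow_ne_zero 2 hx)
  have h1 : (fun y => f y ^ 2) = fun y => f y * f y := funext fun y => sq (f y)
  rw [h1]
  exact hf.2.1.mul_right

private theorem CForm_l2 {D : Set P} {k : ℕ} (f : Fin k → P → ℝ) (hf : ∀ i, LipC D (f i))
    (x : Fin k → ℝ) : l2 (∑ i, x i • f i) = ∑ i, ∑ j, x i * x j * ∫ y, f i y * f j y := by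
  have hi : ∀ i j, Integrable (fun y => f i y * f j y) := fun i j =>
    ((hf i).continuous.mul (hf j).continuous).integrable_of_hasCompactSupport
      (hf i).2.1.mul_right
  have h1 : ∀ y, (∑ i, x i • f i) y ^ 2 = ∑ i, ∑ j, x i * x j * (f i y * f j y) := by
    intro y
    rw [Finset.sum_apply, sq, Finset.sum_mul_sum]
    refine Finset.sum_congr rfl fun i _ => Finset.sum_congr rfl fun j _ => ?_
    simp only [Pi.smul_apply, smul_eq_mul]
    ring
  unfold l2
  rw [integral_congr_ae (Eventually.of_forall h1), integral_finsetSum]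
  · refine Finset.sum_congr rfl fun i _ => ?_
    rw [integral_finsetSum]
    · exact Finset.sum_congr rfl fun j _ => integral_const_mul _ _
    · exact fun j _ => (hi i j).const_mul _
  · exact fun i _ => integrable_finsetSum _ fun j _ => (hi i j).const_mul _

theorem exists_coef_bound {D : Set P} {k : ℕ} (f : Fin k → P → ℝ) (hf : ∀ i, LipC D (f i))
    (hl : LinearIndependent ℝ f) :
    ∃ C : ℝ, 0 < C ∧ ∀ x : Fin k → ℝ, ∑ i, |x i| ≤ C * √(l2 (∑ i, x i • f i)) := by
  rcases Nat.eq_zero_or_pos k with hk | hk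
  · subst hk
    exact ⟨1, one_pos, fun x => by simp⟩
  have hne : Nonempty (Fin k) := ⟨⟨0, hk⟩⟩
  have hcont : Continuous fun x : Fin k → ℝ => l2 (∑ i, x i • f i) := by
    simp only [CForm_l2 f hf]
    fun_prop
  have hsph : (Metric.sphere (0 : Fin k → ℝ) 1).Nonempty :=
    NormedSpace.sphere_nonempty.2 zero_le_one
  obtain ⟨x0, hx0, hmin⟩ := (isCompact_sphere (0 : Fin k → ℝ) 1).exists_isMinOn hsph
    hcont.continuousOn
  have hmem : ∀ x : Fin k → ℝ, LipC D (∑ i, x i • f i) := fun x =>
    mem_LipS.1 (Submodule.sum_mem _ fun i _ => Submodule.smul_mem _ _ (mem_LipS.2 (hf i)))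
  have hpos : 0 < l2 (∑ i, x0 i • f i) := by
    refine l2_pos (hmem x0) fun h0 => ?_
    have h1 := Fintype.linearIndependent_iff.1 hl x0 h0
    have h2 : x0 = 0 := funext h1
    rw [h2, mem_sphere_zero_iff_norm, norm_zero] at hx0
    exact zero_ne_one hx0
  set c := √(l2 (∑ i, x0 i • f i)) with hc
  have hcpos : 0 < c := Real.sqrt_pos.2 hpos
  refine ⟨k / c, by positivity, fun x => ?_⟩
  have hkey : ‖x‖ * c ≤ √(l2 (∑ i, x i • f i)) := by
    by_cases hx : x = 0
    · rw [hx, norm_zero, zero_mul]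
      exact Real.sqrt_nonneg _
    · have hxn : 0 < ‖x‖ := norm_pos_iff.2 hx
      have h1 : ‖x‖⁻¹ • x ∈ Metric.sphere (0 : Fin k → ℝ) 1 := by
        rw [mem_sphere_zero_iff_norm, norm_smul, norm_inv, norm_norm, inv_mul_cancel₀ hxn.ne']
      have h2 : l2 (∑ i, x0 i • f i) ≤ l2 (∑ i, (‖x‖⁻¹ • x) i • f i) := hmin h1
      have h3 : (∑ i, (‖x‖⁻¹ • x) i • f i) = ‖x‖⁻¹ • ∑ i, x i • f i := by
        rw [Finset.smul_sum]
        exact Finset.sum_congr rfl fun i _ => by rw [Pi.smul_apply, smul_assoc]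
      rw [h3, l2_smul] at h2
      have h4 : ‖x‖ ^ 2 * l2 (∑ i, x0 i • f i) ≤ l2 (∑ i, x i • f i) := by
        calc ‖x‖ ^ 2 * l2 (∑ i, x0 i • f i)
            ≤ ‖x‖ ^ 2 * (‖x‖⁻¹ ^ 2 * l2 (∑ i, x i • f i)) :=
              mul_le_mul_of_nonneg_left h2 (by positivity)
          _ = l2 (∑ i, x i • f i) := by
              rw [← mul_assoc, ← mul_pow, mul_inv_cancel₀ hxn.ne', one_pow, one_mul]
      refine Real.le_sqrt_of_sq_le ?_
      rw [mul_pow, hc, Real.sq_sqrt (l2_nonneg _)]
      exact h4
  have hsum : ∑ i, |x i| ≤ k * ‖x‖ := by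
    calc ∑ i, |x i| ≤ ∑ _i : Fin k, ‖x‖ := Finset.sum_le_sum fun i _ => norm_le_pi_norm x i
      _ = k * ‖x‖ := by rw [Finset.sum_const, Finset.card_univ, Fintype.card_fin, nsmul_eq_mul]
  calc ∑ i, |x i| ≤ k * ‖x‖ := hsum
    _ = k / c * (‖x‖ * c) := by field_simp
    _ ≤ k / c * √(l2 (∑ i, x i • f i)) := mul_le_mul_of_nonneg_left hkey (by positivity)

end Pool.Agent.MP4eed4eP
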