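import Pool.Agent.Lib.MP_4eed4e_an_P.PBase

set_option autoImplicit false

/-!
Project P, block C, module CBase: basic facts on Lipschitz functions with compact support, the
Hilbert spaces `LL = L²(Tri)` and `VV = L²(Tri) × L²(Tri)`.
-/

namespace Pool.Agent.MP4eed4eP

open MeasureTheory Set Filter Topology

theorem measurable_d1 (f : P → ℝ) : Measurable (d1 f) := measurable_fderiv_apply_const ℝ f (1, 0)

theorem measurable_d2 (f : P → ℝ) : Measurable (d2 f) := measurable_fderiv_apply_const ℝ f (0, 1)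

theorem abs_d1_le {f : P → ℝ} {K : NNReal} (h : LipschitzWith K f) (x : P) : |d1 f x| ≤ K := by
  have h1 := (fderiv ℝ f x).le_opNorm (1, 0)
  have h2 : ‖fderiv ℝ f x‖ ≤ K := norm_fderiv_le_of_lipschitz ℝ h
  have h3 : ‖((1 : ℝ), (0 : ℝ))‖ = 1 := by simp [Prod.norm_def]
  rw [h3, mul_one, Real.norm_eq_abs] at h1
  exact h1.trans h2

theorem abs_d2_le {f : P → ℝ} {K : NNReal} (h : LipschitzWith K f) (x : P) : |d2 f x| ≤ K := by
  have h1 := (fderiv ℝ f x).le_opNorm (0, 1)
  have h2 : ‖fderiv ℝ f x‖ ≤ K := norm_fderiv_le_of_lipschitz ℝ h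
  have h3 : ‖((0 : ℝ), (1 : ℝ))‖ = 1 := by simp [Prod.norm_def]
  rw [h3, mul_one, Real.norm_eq_abs] at h1
  exact h1.trans h2

theorem ae_diff {f : P → ℝ} {K : NNReal} (h : LipschitzWith K f) :
    ∀ᵐ x : P, DifferentiableAt ℝ f x := h.ae_differentiableAt

theorem d1_add {f g : P → ℝ} {x : P} (hf : DifferentiableAt ℝ f x) (hg : DifferentiableAt ℝ g x) :
    d1 (f + g) x = d1 f x + d1 g x := by
  simp [d1, fderiv_add hf hg]

theorem d2_add {f g : P → ℝ} {x : P} (hf : DifferentiableAt ℝ f x) (hg : DifferentiableAt ℝ g x) :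
    d2 (f + g) x = d2 f x + d2 g x := by
  simp [d2, fderiv_add hf hg]

theorem d1_smul (r : ℝ) (f : P → ℝ) (x : P) : d1 (r • f) x = r * d1 f x := by
  simp [d1, fderiv_const_smul_field]

theorem d2_smul (r : ℝ) (f : P → ℝ) (x : P) : d2 (r • f) x = r * d2 f x := by
  simp [d2, fderiv_const_smul_field]

theorem LipC.add {D : Set P} {f g : P → ℝ} (hf : LipC D f) (hg : LipC D g) : LipC D (f + g) := by
  obtain ⟨⟨K, hK⟩, h1, h2⟩ := hf
  obtain ⟨⟨K', hK'⟩, h1', h2'⟩ := hg
  exact ⟨⟨K + K', hK.add hK'⟩, h1.add h1', (tsupport_add f g).trans (union_subset h2 h2')⟩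

theorem LipC.smul {D : Set P} {f : P → ℝ} (hf : LipC D f) (r : ℝ) : LipC D (r • f) := by
  obtain ⟨⟨K, hK⟩, h1, h2⟩ := hf
  refine ⟨⟨‖r‖₊ * K, ?_⟩, h1.smul_left, ?_⟩
  · refine LipschitzWith.of_dist_le_mul fun x y => ?_
    have := hK.dist_le_mul x y
    rw [Real.dist_eq] at *
    simp only [Pi.smul_apply, smul_eq_mul, NNReal.coe_mul, coe_nnnorm, Real.norm_eq_abs]
    rw [← mul_sub, abs_mul, mul_assoc]
    exact mul_le_mul_of_nonneg_left this (abs_nonneg r)
  · refine (closure_mono ?_).trans h2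
    exact Function.support_const_smul_subset r f

theorem LipC.zero (D : Set P) : LipC D (0 : P → ℝ) := by
  refine ⟨⟨0, LipschitzWith.const 0⟩, HasCompactSupport.zero, ?_⟩
  simp [tsupport]

theorem LipC.mono {D D' : Set P} (h : D ⊆ D') {f : P → ℝ} (hf : LipC D f) : LipC D' f :=
  ⟨hf.1, hf.2.1, hf.2.2.trans h⟩

/-- The space of Lipschitz functions with compact support in `D`. -/
def LipS (D : Set P) : Submodule ℝ (P → ℝ) where
  carrier := {f | LipC D f}
  add_mem' := fun hf hg => LipC.add hf hg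
  zero_mem' := LipC.zero D
  smul_mem' := fun r _ hf => LipC.smul hf r

theorem mem_LipS {D : Set P} {f : P → ℝ} : f ∈ LipS D ↔ LipC D f := Iff.rfl

theorem LipC.continuous {D : Set P} {f : P → ℝ} (hf : LipC D f) : Continuous f := by
  obtain ⟨⟨K, hK⟩, -, -⟩ := hf
  exact hK.continuous

theorem LipC.ae_diff {D : Set P} {f : P → ℝ} (hf : LipC D f) :
    ∀ᵐ x : P, DifferentiableAt ℝ f x := by
  obtain ⟨⟨K, hK⟩, -, -⟩ := hf
  exact hK.ae_differentiableAt

theorem d1_zero_of_notMem {f : P → ℝ} {x : P} (h : x ∉ tsupport f) : d1 f x = 0 := by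
  have h1 : fderiv ℝ f x = 0 := by
    by_contra h2
    exact h (support_fderiv_subset ℝ h2)
  simp [d1, h1]

theorem d2_zero_of_notMem {f : P → ℝ} {x : P} (h : x ∉ tsupport f) : d2 f x = 0 := by
  have h1 : fderiv ℝ f x = 0 := by
    by_contra h2
    exact h (support_fderiv_subset ℝ h2)
  simp [d2, h1]

theorem LipC.compact_d1 {D : Set P} {f : P → ℝ} (hf : LipC D f) : HasCompactSupport (d1 f) := by
  refine HasCompactSupport.intro hf.2.1.isCompact fun x hx => d1_zero_of_notMem hx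

theorem LipC.compact_d2 {D : Set P} {f : P → ℝ} (hf : LipC D f) : HasCompactSupport (d2 f) := by
  refine HasCompactSupport.intro hf.2.1.isCompact fun x hx => d2_zero_of_notMem hx

/-! ### The Hilbert spaces -/

theorem isOpen_Tri : IsOpen Tri := by
  have h1 : IsOpen {v : P | 0 < v.1} := isOpen_lt continuous_const continuous_fst
  have h2 : IsOpen {v : P | 0 < v.2} := isOpen_lt continuous_const continuous_snd
  have h3 : IsOpen {v : P | v.1 + v.2 < 1} :=
    isOpen_lt (continuous_fst.add continuous_snd) continuous_const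
  exact h1.inter (h2.inter h3)

theorem measurableSet_Tri : MeasurableSet Tri := isOpen_Tri.measurableSet

theorem Tri_subset : Tri ⊆ Icc (0 : ℝ) 1 ×ˢ Icc (0 : ℝ) 1 := by
  rintro v ⟨h1, h2, h3⟩
  exact ⟨⟨h1.le, by linarith⟩, ⟨h2.le, by linarith⟩⟩

theorem volume_Tri_lt_top : volume Tri < ⊤ := by
  refine (measure_mono Tri_subset).trans_lt ?_
  exact (isCompact_Icc.prod isCompact_Icc).measure_lt_top

/-- Lebesgue measure on the reference triangle. -/
noncomputable abbrev muT : Measure P := volume.restrict Tri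

instance : IsFiniteMeasure muT := ⟨by rw [Measure.restrict_apply_univ]; exact volume_Tri_lt_top⟩

/-- `L²(Tri)`. -/
abbrev LL : Type := Lp ℝ 2 muT

/-- `L²(Tri) × L²(Tri)` with the Hilbert norm. -/
abbrev VV : Type := WithLp 2 (LL × LL)

/-- The class in `L²(Tri)` of a function. -/
noncomputable def clT (f : P → ℝ) : LL := by
  classical
  exact if h : MemLp f 2 muT then h.toLp f else 0

theorem clT_of_memLp {f : P → ℝ} (h : MemLp f 2 muT) : clT f = h.toLp f := by
  simp [clT, h]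

theorem coeFn_clT {f : P → ℝ} (h : MemLp f 2 muT) : clT f =ᵐ[muT] f := by
  rw [clT_of_memLp h]
  exact h.coeFn_toLp

theorem clT_congr {f g : P → ℝ} (hf : MemLp f 2 muT) (h : f =ᵐ[muT] g) : clT f = clT g := by
  rw [clT_of_memLp hf, clT_of_memLp ((memLp_congr_ae h).1 hf)]
  exact MemLp.toLp_congr _ _ h

theorem memLp_bdd {f : P → ℝ} (hm : Measurable f) {C : ℝ} (h : ∀ x, |f x| ≤ C) :
    MemLp f 2 muT :=
  MemLp.of_bound hm.aestronglyMeasurable C (Eventually.of_forall fun x => by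
    rw [Real.norm_eq_abs]; exact h x)

theorem LipC.bdd {D : Set P} {f : P → ℝ} (hf : LipC D f) : ∃ C, ∀ x, |f x| ≤ C := by
  obtain ⟨C, hC⟩ := hf.2.1.exists_bound_of_continuous hf.continuous
  exact ⟨C, fun x => by simpa using hC x⟩

theorem LipC.memLp {D : Set P} {f : P → ℝ} (hf : LipC D f) : MemLp f 2 muT := by
  obtain ⟨C, hC⟩ := hf.bdd
  exact memLp_bdd hf.continuous.measurable hC

theorem memLp_d1 {f : P → ℝ} {K : NNReal} (h : LipschitzWith K f) : MemLp (d1 f) 2 muT :=
  memLp_bdd (measurable_d1 f) (abs_d1_le h)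

theorem memLp_d2 {f : P → ℝ} {K : NNReal} (h : LipschitzWith K f) : MemLp (d2 f) 2 muT :=
  memLp_bdd (measurable_d2 f) (abs_d2_le h)

theorem clT_add {f g : P → ℝ} (hf : MemLp f 2 muT) (hg : MemLp g 2 muT) :
    clT (f + g) = clT f + clT g := by
  rw [clT_of_memLp hf, clT_of_memLp hg, clT_of_memLp (hf.add hg)]
  rfl

theorem clT_smul {f : P → ℝ} (hf : MemLp f 2 muT) (r : ℝ) : clT (r • f) = r • clT f := by
  rw [clT_of_memLp hf, clT_of_memLp (hf.const_smul r)]
  rfl

/-- The inner product of two classes. -/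
theorem inner_clT {f g : P → ℝ} (hf : MemLp f 2 muT) (hg : MemLp g 2 muT) :
    (inner ℝ (clT f) (clT g) : ℝ) = ∫ x in Tri, f x * g x := by
  rw [L2.inner_def]
  refine integral_congr_ae ?_
  filter_upwards [coeFn_clT hf, coeFn_clT hg] with x h1 h2
  rw [h1, h2]
  simp [mul_comm]

/-- The value map. -/
noncomputable def valT : LipS Tri →ₗ[ℝ] LL where
  toFun f := clT f.1
  map_add' f g := clT_add (LipC.memLp f.2) (LipC.memLp g.2)
  map_smul' r f := clT_smul (LipC.memLp f.2) r

/-- The pair of the classes of two functions. -/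
noncomputable def prT (f g : P → ℝ) : VV := WithLp.toLp 2 (clT f, clT g)

theorem inner_prT {f1 f2 g1 g2 : P → ℝ} (hf1 : MemLp f1 2 muT) (hf2 : MemLp f2 2 muT)
    (hg1 : MemLp g1 2 muT) (hg2 : MemLp g2 2 muT) :
    (inner ℝ (prT f1 f2) (prT g1 g2) : ℝ) = ∫ x in Tri, (f1 x * g1 x + f2 x * g2 x) := by
  have h : (∫ x in Tri, (f1 x * g1 x + f2 x * g2 x)) =
      (∫ x in Tri, f1 x * g1 x) + ∫ x in Tri, f2 x * g2 x :=
    integral_add (hf1.integrable_mul hg1) (hf2.integrable_mul hg2)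
  rw [h, ← inner_clT hf1 hg1, ← inner_clT hf2 hg2]
  simp [prT, WithLp.prod_inner_apply]

/-- The gradient map. -/
noncomputable def grdT : LipS Tri →ₗ[ℝ] VV where
  toFun f := prT (d1 f.1) (d2 f.1)
  map_add' f g := by
    obtain ⟨⟨K, hK⟩, -, -⟩ := id f.2
    obtain ⟨⟨K', hK'⟩, -, -⟩ := id g.2
    have h1 : clT (d1 (f.1 + g.1)) = clT (d1 f.1) + clT (d1 g.1) := by
      rw [← clT_add (memLp_d1 hK) (memLp_d1 hK')]
      refine clT_congr (memLp_d1 (hK.add hK')) (ae_restrict_of_ae ?_)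
      filter_upwards [ae_diff hK, ae_diff hK'] with x hx hx'
      exact d1_add hx hx'
    have h2 : clT (d2 (f.1 + g.1)) = clT (d2 f.1) + clT (d2 g.1) := by
      rw [← clT_add (memLp_d2 hK) (memLp_d2 hK')]
      refine clT_congr (memLp_d2 (hK.add hK')) (ae_restrict_of_ae ?_)
      filter_upwards [ae_diff hK, ae_diff hK'] with x hx hx'
      exact d2_add hx hx'
    show WithLp.toLp 2 (clT (d1 (f.1 + g.1)), clT (d2 (f.1 + g.1))) = _
    rw [h1, h2]
    rfl
  map_smul' r f := by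
    obtain ⟨⟨K, hK⟩, -, -⟩ := id f.2
    have h1 : clT (d1 (r • f.1)) = r • clT (d1 f.1) := by
      rw [← clT_smul (memLp_d1 hK)]
      congr 1
      ext x
      exact d1_smul r f.1 x
    have h2 : clT (d2 (r • f.1)) = r • clT (d2 f.1) := by
      rw [← clT_smul (memLp_d2 hK)]
      congr 1
      ext x
      exact d2_smul r f.1 x
    show WithLp.toLp 2 (clT (d1 (r • f.1)), clT (d2 (r • f.1))) = _
    rw [h1, h2]
    rfl

/-- The space `H` of the project: the closure of the gradients. -/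
noncomputable abbrev HH : Submodule ℝ VV := (LinearMap.range grdT).topologicalClosure

theorem grdT_mem (f : LipS Tri) : grdT f ∈ HH :=
  Submodule.le_topologicalClosure _ ⟨f, rfl⟩

/-- The gradient as an element of `HH`. -/
noncomputable def gH (f : LipS Tri) : HH := ⟨grdT f, grdT_mem f⟩

end Pool.Agent.MP4eed4eP
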