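import Pool.Agent.Lib.MP_4eed4e_an_PC.CEmb

set_option autoImplicit false

/-!
Project P, block C, module CDen: density.

* `dense_GG`: `GG` is dense in `HH`, because `HH` is the closure of `LinearMap.range grdT` in `VV`
(every   element of `HH` is a limit of elements of the range; the topology of `HH` is induced).
* `dense_ET`: `DenseRange ioT`. The range contains the classes `valT f`, `f : LipS Tri`. Its
closure is a   closed subspace of `LL`; if `g : LL` is orthogonal to it then `∫_Tri φ g = 0` for
every smooth `φ` with   compact support in `Tri` (such a `φ` is Lipschitz), so `g = 0` almost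
everywhere on `Tri`   (`IsOpen.ae_eq_zero_of_integral_contDiff_smul_eq_zero`), so the closure is
everything   (`Submodule.topologicalClosure_eq_top_iff`).
* `inf_LL`: `LL` is infinite dimensional: the indicator functions of the pairwise disjoint sets
  `{v ∈ Tri | 1/(n+2) < v.1 < 1/(n+1)}` (positive measure) are nonzero and pairwise orthogonal,
hence   linearly independent.
-/

namespace Pool.Agent.MP4eed4eP

open MeasureTheory Set Filter Topology

theorem dense_GG : GG.topologicalClosure = ⊤ := by
  rw [Submodule.eq_top_iff']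
  intro g
  have h0 : g ∈ closure (GG : Set HH) := by
    rw [closure_subtype]
    have h1 : (LinearMap.range grdT : Set VV) ⊆ Subtype.val '' (GG : Set HH) := by
      rintro _ ⟨f, rfl⟩
      exact ⟨gH f, gH_mem f, rfl⟩
    exact closure_mono h1 g.2
  exact h0

theorem dense_ET : DenseRange ioT := by
  have hperp : (LinearMap.range valT)ᗮ = ⊥ := by
    rw [Submodule.eq_bot_iff]
    intro g hg
    have hgm : MemLp (g : P → ℝ) 2 muT := Lp.memLp g
    have hgi : IntegrableOn (g : P → ℝ) Tri volume := hgm.integrable (by norm_num)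
    have h1 : ∀ᵐ x : P, x ∈ Tri → (g : P → ℝ) x = 0 := by
      refine isOpen_Tri.ae_eq_zero_of_integral_contDiff_smul_eq_zero
        hgi.locallyIntegrableOn fun f hf1 hf2 hf3 => ?_
      have hL : LipC Tri f := ⟨hf1.lipschitzWith_of_hasCompactSupport hf2 (by simp), hf2, hf3⟩
      have h2 : (inner ℝ (valT ⟨f, hL⟩) g : ℝ) = 0 :=
        (Submodule.mem_orthogonal _ g).1 hg _ ⟨⟨f, hL⟩, rfl⟩
      have h3 : (inner ℝ (valT ⟨f, hL⟩) g : ℝ) = ∫ x in Tri, f x • (g : P → ℝ) x := by
        rw [L2.inner_def]
        refine integral_congr_ae ?_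
        have h4 : (valT ⟨f, hL⟩ : LL) =ᵐ[muT] f := coeFn_clT hL.memLp
        filter_upwards [h4] with x hx
        rw [hx]
        simp [mul_comm]
      rw [h3, setIntegral_eq_integral_of_forall_compl_eq_zero] at h2
      · exact h2
      · intro x hx
        have : f x = 0 := image_eq_zero_of_notMem_tsupport fun h => hx (hf3 h)
        rw [this, zero_smul]
    have h5 : (g : P → ℝ) =ᵐ[muT] 0 := by
      rw [Filter.EventuallyEq, ae_restrict_iff' measurableSet_Tri]
      exact h1
    exact (Lp.eq_zero_iff_ae_eq_zero).2 h5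
  have hd : (LinearMap.range valT).topologicalClosure = ⊤ :=
    Submodule.topologicalClosure_eq_top_iff.2 hperp
  intro g
  have h1 : g ∈ (LinearMap.range valT).topologicalClosure := by
    rw [hd]
    exact Submodule.mem_top
  have h2 : (LinearMap.range valT : Set LL) ⊆ range ioT := by
    rintro _ ⟨f, rfl⟩
    exact ⟨gH f, ioT_gH f⟩
  exact closure_mono h2 h1

/-- The strips. -/
private def CDenS (n : ℕ) : Set P :=
  {v | v ∈ Tri ∧ 1 / ((n : ℝ) + 2) < v.1 ∧ v.1 < 1 / ((n : ℝ) + 1)}

private theorem CDen_open (n : ℕ) : IsOpen (CDenS n) :=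
  isOpen_Tri.inter ((isOpen_lt continuous_const continuous_fst).inter
    (isOpen_lt continuous_fst continuous_const))

private theorem CDen_sub (n : ℕ) : CDenS n ⊆ Tri := fun _ h => h.1

private theorem CDen_pos (n : ℕ) : 0 < volume.real (CDenS n) := by
  have hn : (0 : ℝ) ≤ n := Nat.cast_nonneg n
  have h1 : (1 : ℝ) / ((n : ℝ) + 2) < 1 / ((n : ℝ) + 1) :=
    one_div_lt_one_div_of_lt (by positivity) (by linarith)
  obtain ⟨a, ha1, ha2⟩ := exists_between h1
  have ha0 : 0 < a := lt_trans (by positivity) ha1
  have ha3 : a < 1 := lt_of_lt_of_le ha2 (by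
    rw [div_le_one (by positivity)]
    linarith)
  have hne : (CDenS n).Nonempty := ⟨(a, (1 - a) / 2), ⟨ha0, by
    show 0 < (1 - a) / 2
    linarith, by
    show a + (1 - a) / 2 < 1
    linarith⟩, ha1, ha2⟩
  have h2 : 0 < volume (CDenS n) := (CDen_open n).measure_pos volume hne
  exact ENNReal.toReal_pos h2.ne' (ne_of_lt
    ((measure_mono (CDen_sub n)).trans_lt volume_Tri_lt_top))

private theorem CDen_disj {i j : ℕ} (h : i < j) (x : P) (hi : x ∈ CDenS i) (hj : x ∈ CDenS j) :
    False := by
  have h1 := hi.2.1
  have h2 := hj.2.2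
  have h3 : (1 : ℝ) / ((j : ℝ) + 1) ≤ 1 / ((i : ℝ) + 2) := by
    apply one_div_le_one_div_of_le (by positivity)
    have : ((i + 1 : ℕ) : ℝ) ≤ j := Nat.cast_le.2 h
    push_cast at this
    linarith
  linarith

private theorem CDen_mem (n : ℕ) : MemLp ((CDenS n).indicator fun _ : P => (1 : ℝ)) 2 muT := by
  refine memLp_bdd (measurable_const.indicator (CDen_open n).measurableSet) (C := 1) fun x => ?_
  by_cases hx : x ∈ CDenS n
  · simp [hx]
  · simp [hx]

theorem inf_LL : ¬ FiniteDimensional ℝ LL := by
  intro hfin
  have hli : LinearIndependent ℝ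
      (fun n : ℕ => clT ((CDenS n).indicator fun _ : P => (1 : ℝ))) := by
    refine linearIndependent_of_ne_zero_of_inner_eq_zero (𝕜 := ℝ) (fun n h0 => ?_)
      fun i j hij => ?_
    · have h1 := inner_clT (CDen_mem n) (CDen_mem n)
      rw [h0, inner_zero_left] at h1
      have h2 : (∫ x in Tri, (CDenS n).indicator (fun _ : P => (1 : ℝ)) x *
          (CDenS n).indicator (fun _ : P => (1 : ℝ)) x) = volume.real (CDenS n) := by
        have h3 : (fun x : P => (CDenS n).indicator (fun _ : P => (1 : ℝ)) x *
            (CDenS n).indicator (fun _ : P => (1 : ℝ)) x) =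
            (CDenS n).indicator fun _ : P => (1 : ℝ) := by
          funext x
          by_cases hx : x ∈ CDenS n
          · simp [hx]
          · simp [hx]
        rw [h3, setIntegral_indicator (CDen_open n).measurableSet,
          inter_eq_self_of_subset_right (CDen_sub n)]
        simp
      rw [h2] at h1
      exact (CDen_pos n).ne h1
    · have h1 := inner_clT (CDen_mem i) (CDen_mem j)
      show (inner ℝ (clT ((CDenS i).indicator fun _ : P => (1 : ℝ)))
        (clT ((CDenS j).indicator fun _ : P => (1 : ℝ))) : ℝ) = 0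
      rw [h1]
      have h3 : (fun x : P => (CDenS i).indicator (fun _ : P => (1 : ℝ)) x *
          (CDenS j).indicator (fun _ : P => (1 : ℝ)) x) = fun _ => 0 := by
        funext x
        by_cases hx : x ∈ CDenS i
        · by_cases hx' : x ∈ CDenS j
          · exfalso
            rcases lt_or_gt_of_ne hij with h | h
            · exact CDen_disj h x hx hx'
            · exact CDen_disj h x hx' hx
          · simp [hx']
        · simp [hx]
      rw [h3]
      simp
  exact not_finite_iff_infinite.2 inferInstance hli.finite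

end Pool.Agent.MP4eed4eP
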