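import Pool.Agent.Lib.MP_4eed4e_an_PA.Df

set_option autoImplicit false

/-!
Project P, block C, module CAz: construction of the embedding from test functions.

`T` are the test functions, `val f` the function, `grd f` its gradient; `H` is the closure of the
gradients in the Hilbert space `V`.

PROOF. Let `G = (LinearMap.range grd).topologicalClosure` (a closed subspace of the complete space
`V`, so complete). `l m ^ 4` is summable, so `l m ^ 2` is bounded by some `B` (a summable family is
bounded).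
* For `f : T`: `‖val f‖² = ∑ ⟨s m, val f⟩² = ∑ l m ² ⟨kk m, grd f⟩² ≤ B ‖grd f‖²` (`frame`,
  `adj`, `bessel`). So `‖val f‖ ≤ √B ‖grd f‖`.
* Hence `val` extends by continuity from the range of `grd` to the closure `G`
  (`LinearMap.extendOfNorm`).
* `k m = ` the orthogonal projection of `kk m` to `G`; `⟨k m, h⟩ = ⟨kk m, h⟩` for `h : G`. Bessel
  for finite sums follows from `bessel` (`Summable.sum_le_tsum`).
* `adj`: `⟨io* (s m), h⟩ = ⟨s m, io h⟩` and `⟨l m • k m, h⟩ = l m ⟨kk m, h⟩` are continuous in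
  `h : G` and agree for `h = grd f` (`adj`), which are dense in `G`.
-/

namespace Pool.Agent.MP4eed4eP

theorem exists_emb {κ T V L : Type} [AddCommGroup T] [Module ℝ T] [NormedAddCommGroup V]
    [InnerProductSpace ℝ V] [CompleteSpace V] [NormedAddCommGroup L] [InnerProductSpace ℝ L]
    [CompleteSpace L] (val : T →ₗ[ℝ] L) (grd : T →ₗ[ℝ] V) (s : κ → L) (l : κ → ℝ) (kk : κ → V)
    (frame : ∀ f : L, HasSum (fun m => (inner ℝ (s m) f : ℝ) ^ 2) (‖f‖ ^ 2))
    (adj : ∀ (m : κ) (f : T), (inner ℝ (s m) (val f) : ℝ) = l m * inner ℝ (kk m) (grd f))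
    (bessel : ∀ h : V, Summable (fun m => (inner ℝ (kk m) h : ℝ) ^ 2) ∧
      ∑' m, (inner ℝ (kk m) h : ℝ) ^ 2 ≤ ‖h‖ ^ 2)
    (sum4 : Summable (fun m => l m ^ 4)) :
    ∃ (io : (LinearMap.range grd).topologicalClosure →L[ℝ] L)
      (k : κ → (LinearMap.range grd).topologicalClosure), PA.Emb io s k l ∧
      ∀ (f : T) (h : grd f ∈ (LinearMap.range grd).topologicalClosure), io ⟨grd f, h⟩ = val f := by
  have hmem : ∀ f, grd f ∈ (LinearMap.range grd).topologicalClosure := fun f =>
    (LinearMap.range grd).le_topologicalClosure (LinearMap.mem_range_self grd f)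
  -- the numbers `l m ^ 2` are bounded
  have hB0 : 0 ≤ ∑' m, l m ^ 4 := tsum_nonneg fun m => by positivity
  have hB : ∀ m, l m ^ 2 ≤ ∑' m, l m ^ 4 + 1 := by
    intro m
    have h1 : l m ^ 4 ≤ ∑' m, l m ^ 4 := sum4.le_tsum m fun _ _ => by positivity
    by_contra hcon
    rw [not_le] at hcon
    nlinarith [sq_nonneg (l m)]
  -- the norm estimate
  have hval : ∀ f, ‖val f‖ ^ 2 ≤ (∑' m, l m ^ 4 + 1) * ‖grd f‖ ^ 2 := by
    intro f
    have h1 := (bessel (grd f)).1.hasSum.mul_left (∑' m, l m ^ 4 + 1)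
    have h2 := hasSum_le (fun m => by
      rw [adj, mul_pow]
      exact mul_le_mul_of_nonneg_right (hB m) (sq_nonneg _)) (frame (val f)) h1
    exact h2.trans (mul_le_mul_of_nonneg_left (bessel (grd f)).2 (by positivity))
  obtain ⟨e, he⟩ : ∃ e : T →ₗ[ℝ] (LinearMap.range grd).topologicalClosure,
      ∀ f, e f = ⟨grd f, hmem f⟩ :=
    ⟨grd.codRestrict _ hmem, fun f => rfl⟩
  have hnorm : ∃ C : ℝ, ∀ f, ‖val f‖ ≤ C * ‖e f‖ := by
    refine ⟨Real.sqrt (∑' m, l m ^ 4 + 1), fun f => ?_⟩
    have h1 : ‖e f‖ = ‖grd f‖ := by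
      rw [he]
      rfl
    rw [h1]
    refine le_of_sq_le_sq ?_ (by positivity)
    rw [mul_pow, Real.sq_sqrt (by positivity)]
    exact hval f
  have hdense : DenseRange e := by
    intro x
    rw [Metric.mem_closure_range_iff]
    intro ε hε
    have h1 : (x : V) ∈ closure (LinearMap.range grd : Set V) := x.2
    rw [Metric.mem_closure_iff] at h1
    obtain ⟨_, ⟨f, rfl⟩, h3⟩ := h1 ε hε
    refine ⟨f, ?_⟩
    rw [he, Subtype.dist_eq]
    exact h3
  have hio := LinearMap.extendOfNorm_eq hdense hnorm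
  have hk : ∀ (m : κ) (h : (LinearMap.range grd).topologicalClosure),
      (inner ℝ ((LinearMap.range grd).topologicalClosure.orthogonalProjectionOnto (kk m)) h : ℝ) =
        inner ℝ (kk m) (h : V) := by
    intro m h
    rw [Submodule.coe_inner]
    exact Submodule.inner_orthogonalProjectionOnto_eq_of_mem_right h (kk m)
  refine ⟨val.extendOfNorm e,
    fun m => (LinearMap.range grd).topologicalClosure.orthogonalProjectionOnto (kk m),
    ⟨frame, ?_, ?_, sum4⟩, ?_⟩
  · intro m
    refine ext_inner_right ℝ fun h => ?_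
    rw [ContinuousLinearMap.adjoint_inner_left, inner_smul_left, hk, RCLike.conj_to_real]
    have hcl : IsClosed {h : (LinearMap.range grd).topologicalClosure |
        (inner ℝ (s m) (val.extendOfNorm e h) : ℝ) = l m * inner ℝ (kk m) (h : V)} := by
      refine isClosed_eq ?_ ?_
      · exact continuous_const.inner (val.extendOfNorm e).continuous
      · exact continuous_const.mul (continuous_const.inner continuous_subtype_val)
    refine isClosed_property hdense hcl (fun f => ?_) h
    show (inner ℝ (s m) (val.extendOfNorm e (e f)) : ℝ) = l m * inner ℝ (kk m) ((e f : _) : V)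
    rw [hio, adj, he]
  · intro g t
    have h1 : ∑ m ∈ t, (inner ℝ ((LinearMap.range grd).topologicalClosure.orthogonalProjectionOnto
        (kk m)) g : ℝ) ^ 2 = ∑ m ∈ t, (inner ℝ (kk m) (g : V) : ℝ) ^ 2 :=
      Finset.sum_congr rfl fun m _ => by rw [hk]
    rw [h1]
    have h2 := bessel (g : V)
    exact (h2.1.sum_le_tsum t fun _ _ => sq_nonneg _).trans h2.2
  · intro f h
    have h1 := hio f
    rw [he] at h1
    exact h1

end Pool.Agent.MP4eed4eP
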