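import Pool.Agent.Lib.MP_4eed4e_an_PC.CBase

set_option autoImplicit false

/-!
Project P, block C, module CEig: from the Euclidean plane to `P = ℝ × ℝ`.

`lamC D k` is the min-max value over the `C¹` functions with compact support in `D` (functions
on `P`). `toP : E2 → P` is a bijection (inverse `ofP`), it is a continuous linear equivalence
and it preserves Lebesgue measure: it is the composition of
`EuclideanSpace.measurableEquiv`-type map `E2 → (Fin 2 → ℝ)`
(`EuclideanSpace.volume_preserving_symm_measurableEquiv_toLp`) and `MeasurableEquiv.finTwoArrow`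
(`volume_preserving_finTwoArrow`). For `f : E2 → ℝ` put `g = f ∘ ofP : P → ℝ`; then `f = g ∘
toP`, `f` is `C¹` iff `g` is, the supports correspond (`tsupport g = toP '' tsupport f`), `∫ f²
= l2 g`, and `‖fderiv ℝ f x‖² = d1 g (toP x)² + d2 g (toP x)²` because the norm of a linear
functional `ℓ` on `E2` satisfies `‖ℓ‖² = ℓ(e_0)² + ℓ(e_1)²` (Riesz, or
`InnerProductSpace.toDual`), and `fderiv ℝ f x (e_i) = fderiv ℝ g (toP x) (toP e_i)` by the
chain rule. `f ↦ f ∘ ofP` is a linear equivalence `(E2 → ℝ) ≃ (P → ℝ)`, so it maps the subspaces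
of dimension `k` to subspaces of dimension `k` (`LinearEquiv.funCongrLeft`,
`LinearEquiv.finrank_map_eq`); hence the two sets of numbers `r` are equal.
-/

namespace Pool.Agent.MP4eed4eP

open MeasureTheory Set Filter Topology

/-- The `k`-th min-max value over the `C¹` functions with compact support in `D`. -/
noncomputable def lamC (D : Set P) (k : ℕ) : ℝ :=
  sInf {r : ℝ | ∃ V : Submodule ℝ (P → ℝ), Module.finrank ℝ V = k ∧
    ∀ f ∈ V, ContDiff ℝ 1 f ∧ HasCompactSupport f ∧ tsupport f ⊆ D ∧ en f ≤ r * l2 f}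

/-- `toP` as a continuous linear equivalence. -/
private noncomputable def ceL : E2 ≃L[ℝ] P :=
  (EuclideanSpace.equiv (Fin 2) ℝ).trans (ContinuousLinearEquiv.finTwoArrow ℝ ℝ)

private theorem ceL_apply (x : E2) : ceL x = toP x := rfl

private theorem ceL_coe : (ceL : E2 → P) = toP := rfl

private theorem ceL_mp : MeasurePreserving (ceL : E2 → P) volume volume :=
  (volume_preserving_finTwoArrow ℝ).comp
    (EuclideanSpace.volume_preserving_symm_measurableEquiv_toLp (Fin 2))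

private theorem ceL_emb : MeasurableEmbedding (ceL : E2 → P) :=
  ceL.toHomeomorph.measurableEmbedding

private theorem ce_norm (ℓ : E2 →L[ℝ] ℝ) :
    ‖ℓ‖ ^ 2 = ℓ (EuclideanSpace.single 0 1) ^ 2 + ℓ (EuclideanSpace.single 1 1) ^ 2 := by
  have h1 : ‖ℓ‖ = ‖(InnerProductSpace.toDual ℝ E2).symm ℓ‖ :=
    ((InnerProductSpace.toDual ℝ E2).symm.norm_map ℓ).symm
  have h2 : ∀ i : Fin 2, ((InnerProductSpace.toDual ℝ E2).symm ℓ) i =
      ℓ (EuclideanSpace.single i 1) := by
    intro i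
    have h3 := InnerProductSpace.toDual_symm_apply (𝕜 := ℝ) (E := E2)
      (x := EuclideanSpace.single i (1 : ℝ)) (y := ℓ)
    rw [← h3, real_inner_comm, EuclideanSpace.inner_single_left]
    simp
  rw [h1, EuclideanSpace.norm_sq_eq, Fin.sum_univ_two, h2, h2, Real.norm_eq_abs,
    Real.norm_eq_abs, sq_abs, sq_abs]

private theorem ce_fd (g : P → ℝ) (x : E2) :
    ‖fderiv ℝ (g ∘ toP) x‖ ^ 2 = d1 g (toP x) ^ 2 + d2 g (toP x) ^ 2 := by
  have h1 : fderiv ℝ (g ∘ toP) x = (fderiv ℝ g (toP x)).comp (ceL : E2 →L[ℝ] P) :=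
    ceL.comp_right_fderiv
  have h2 : (ceL (EuclideanSpace.single 0 1) : P) = (1, 0) := by
    rw [ceL_apply, toP]
    simp
  have h3 : (ceL (EuclideanSpace.single 1 1) : P) = (0, 1) := by
    rw [ceL_apply, toP]
    simp
  rw [ce_norm, h1]
  show (fderiv ℝ g (toP x) (ceL (EuclideanSpace.single 0 1))) ^ 2 +
    (fderiv ℝ g (toP x) (ceL (EuclideanSpace.single 1 1))) ^ 2 = _
  rw [h2, h3]
  rfl

private theorem ce_key (Ω : Set E2) (r : ℝ) (g : P → ℝ) :
    (ContDiff ℝ 1 (g ∘ toP) ∧ HasCompactSupport (g ∘ toP) ∧ tsupport (g ∘ toP) ⊆ Ω ∧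
      ∫ x, ‖fderiv ℝ (g ∘ toP) x‖ ^ 2 ≤ r * ∫ x, (g ∘ toP) x ^ 2) ↔
    (ContDiff ℝ 1 g ∧ HasCompactSupport g ∧ tsupport g ⊆ toP '' Ω ∧ en g ≤ r * l2 g) := by
  have h1 : ContDiff ℝ 1 (g ∘ toP) ↔ ContDiff ℝ 1 g := ceL.contDiff_comp_iff
  have h2 : HasCompactSupport (g ∘ toP) ↔ HasCompactSupport g := by
    constructor
    · intro h
      have h3 := h.comp_homeomorph ceL.symm.toHomeomorph
      have h4 : (g ∘ toP) ∘ ceL.symm.toHomeomorph = g := by
        funext v
        show g (ceL (ceL.symm v)) = g v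
        rw [ceL.apply_symm_apply]
      rwa [h4] at h3
    · intro h
      exact h.comp_homeomorph ceL.toHomeomorph
  have h3 : tsupport (g ∘ toP) ⊆ Ω ↔ tsupport g ⊆ toP '' Ω := by
    have h4 : tsupport (g ∘ toP) = toP ⁻¹' tsupport g :=
      tsupport_comp_eq_preimage g ceL.toHomeomorph
    rw [h4]
    constructor
    · intro h v hv
      refine ⟨ceL.symm v, h ?_, ceL.apply_symm_apply v⟩
      show ceL (ceL.symm v) ∈ tsupport g
      rwa [ceL.apply_symm_apply]
    · rintro h x hx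
      obtain ⟨y, hy, hyx⟩ := h hx
      have h5 : y = x := ceL.injective hyx
      rwa [← h5]
  have h4 : ∫ x, ‖fderiv ℝ (g ∘ toP) x‖ ^ 2 = en g := by
    simp only [ce_fd]
    exact ceL_mp.integral_comp ceL_emb (fun v => d1 g v ^ 2 + d2 g v ^ 2)
  have h5 : ∫ x, (g ∘ toP) x ^ 2 = l2 g :=
    ceL_mp.integral_comp ceL_emb (fun v => g v ^ 2)
  rw [h1, h2, h3, h4, h5]

theorem eig_eq_lamC (Ω : Set E2) (k : ℕ) : eig Ω k = lamC (toP '' Ω) k := by
  have hT : ∀ g : P → ℝ, LinearEquiv.funCongrLeft ℝ ℝ ceL.toEquiv g = g ∘ toP := fun g => rfl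
  unfold eig lamC
  congr 1
  ext r
  constructor
  · rintro ⟨V, hk, hV⟩
    refine ⟨V.map (LinearEquiv.funCongrLeft ℝ ℝ ceL.toEquiv).symm.toLinearMap,
      ((LinearEquiv.funCongrLeft ℝ ℝ ceL.toEquiv).symm.finrank_map_eq V).trans hk, ?_⟩
    rintro g ⟨f, hf, rfl⟩
    refine (ce_key Ω r _).1 ?_
    rw [← hT]
    rw [show (LinearEquiv.funCongrLeft ℝ ℝ ceL.toEquiv)
      ((LinearEquiv.funCongrLeft ℝ ℝ ceL.toEquiv).symm.toLinearMap f) = f from
      (LinearEquiv.funCongrLeft ℝ ℝ ceL.toEquiv).apply_symm_apply f]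
    exact hV f hf
  · rintro ⟨V, hk, hV⟩
    refine ⟨V.map (LinearEquiv.funCongrLeft ℝ ℝ ceL.toEquiv).toLinearMap,
      ((LinearEquiv.funCongrLeft ℝ ℝ ceL.toEquiv).finrank_map_eq V).trans hk, ?_⟩
    rintro f ⟨g, hg, rfl⟩
    exact (ce_key Ω r g).2 (hV g hg)

end Pool.Agent.MP4eed4eP
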