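import Pool.Agent.Lib.MP_4eed4e_an_PC.CBes
import Pool.Agent.Lib.MP_4eed4e_an_PC.CAz

set_option autoImplicit false

/-!
Project P, block C, module CEmb: the embedding `HH → LL`.
-/

namespace Pool.Agent.MP4eed4eP

open MeasureTheory Set Filter Topology

theorem exists_ET : ∃ (io : HH →L[ℝ] LL) (k : ℕ × ℕ → HH), PA.Emb io sT k lT ∧
    ∀ (f : LipS Tri) (h : grdT f ∈ HH), io ⟨grdT f, h⟩ = valT f :=
  exists_emb valT grdT sT lT kT frame_sT adj_sT bessel_kT sum4_lT

/-- The embedding of the reference triangle. -/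
noncomputable def ioT : HH →L[ℝ] LL := Classical.choose exists_ET

/-- The Bessel family. -/
noncomputable def kH : ℕ × ℕ → HH := Classical.choose (Classical.choose_spec exists_ET)

theorem emb_T : PA.Emb ioT sT kH lT :=
  (Classical.choose_spec (Classical.choose_spec exists_ET)).1

theorem ioT_gH (f : LipS Tri) : ioT (gH f) = valT f :=
  (Classical.choose_spec (Classical.choose_spec exists_ET)).2 f (grdT_mem f)

/-- The range of the gradient map inside `HH`. -/
noncomputable def GG : Submodule ℝ HH := (LinearMap.range grdT).comap HH.subtype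

theorem gH_mem (f : LipS Tri) : gH f ∈ GG := ⟨f, rfl⟩

theorem mem_GG {g : HH} : g ∈ GG ↔ ∃ f : LipS Tri, gH f = g := by
  constructor
  · rintro ⟨f, hf⟩
    exact ⟨f, Subtype.ext hf⟩
  · rintro ⟨f, rfl⟩
    exact gH_mem f

end Pool.Agent.MP4eed4eP
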