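import Pool.Agent.Lib.MP_4eed4e_an_PC.CBase
import Pool.Agent.Lib.MP_4eed4e_an_P.OutB

set_option autoImplicit false

/-!
Project P, block C, module CFrm: the Parseval frame of `L²(Tri)`.

`sT p` is the class of the sine function `ss p` restricted to `Tri ⊆ Sq`.
* `frame_sT`: for `f : LL` (a class on `Tri`) let `F = Tri.indicator f : P → ℝ` (of the coercion of `f`); `F` is
  in `L²(Sq)`, `∫_Sq ss p F = ∫_Tri ss p f = ⟨sT p, f⟩` and `∫_Sq F² = ∫_Tri f² = ‖f‖²`; use `hasSum_ss`.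
* `norm_sT`: not needed. `sum4_lT`: `lT p ^ 4 = (lams p)⁻¹ ^ 2`, `summable_lams` (`lams p > 0`).
* `adj_sT`: `f : LipS Tri` has compact support in `Tri`. `⟨sT p, val f⟩ = ∫_Tri ss p * f = ∫ ss p * f` and
  `⟨kT p, grd f⟩ = (1 / √lams) ∫ (d1 (ss p) d1 f + d2 (ss p) d2 f)` (integrals over `P`, because `f`, `d1 f`,
  `d2 f` vanish off `Tri`). By `LipschitzWith.integral_lineDeriv_mul_eq` (for the globally Lipschitz functions
  `d1 (ss p)` and `f`, `f` with compact support; `lineDeriv ℝ f x v = fderiv ℝ f x v` at points of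
  differentiability) `∫ d1 (ss p) d1 f = - ∫ d1 (d1 (ss p)) f`, the same for `d2`, and by `lap_ss` the sum is
  `lams p ∫ ss p f`. (`ss p`, `d1 (ss p)`, .. are sums of products of sines and cosines; compute them
  explicitly; they are Lipschitz because they are smooth with bounded derivative, or multiply with a smooth
  cut-off function which is `1` near the support of `f`.)
-/

namespace Pool.Agent.MP4eed4eP

open MeasureTheory Set Filter Topology

/-- The Parseval frame of `LL`. -/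
noncomputable def sT (p : ℕ × ℕ) : LL := clT (ss p)

/-- The numbers `lam^{-1/2}`. -/
noncomputable def lT (p : ℕ × ℕ) : ℝ := 1 / √(lams p)

/-- The normalised gradients of the sine functions, restricted to `Tri`. -/
noncomputable def kT (p : ℕ × ℕ) : VV := (1 / √(lams p)) • prT (d1 (ss p)) (d2 (ss p))

theorem lams_pos (p : ℕ × ℕ) : 0 < lams p := by
  unfold lams
  positivity

private theorem CFrm_has {u v u' v' : ℝ → ℝ} (hu : ∀ t, HasDerivAt u (u' t) t)
    (hv : ∀ t, HasDerivAt v (v' t) t) (x : P) :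
    HasFDerivAt (fun x : P => u x.1 * v x.2)
      (u x.1 • (v' x.2 • ContinuousLinearMap.snd ℝ ℝ ℝ) +
        v x.2 • (u' x.1 • ContinuousLinearMap.fst ℝ ℝ ℝ)) x := by
  have h1 : HasFDerivAt (fun x : P => u x.1) (u' x.1 • ContinuousLinearMap.fst ℝ ℝ ℝ) x :=
    (hu x.1).comp_hasFDerivAt x hasFDerivAt_fst
  have h2 : HasFDerivAt (fun x : P => v x.2) (v' x.2 • ContinuousLinearMap.snd ℝ ℝ ℝ) x :=
    (hv x.2).comp_hasFDerivAt x hasFDerivAt_snd
  exact h1.mul h2

private theorem CFrm_d1 {u v u' v' : ℝ → ℝ} (hu : ∀ t, HasDerivAt u (u' t) t)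
    (hv : ∀ t, HasDerivAt v (v' t) t) :
    d1 (fun x : P => u x.1 * v x.2) = fun x : P => u' x.1 * v x.2 := by
  funext x
  rw [d1, (CFrm_has hu hv x).fderiv]
  simp [mul_comm]

private theorem CFrm_d2 {u v u' v' : ℝ → ℝ} (hu : ∀ t, HasDerivAt u (u' t) t)
    (hv : ∀ t, HasDerivAt v (v' t) t) :
    d2 (fun x : P => u x.1 * v x.2) = fun x : P => u x.1 * v' x.2 := by
  funext x
  rw [d2, (CFrm_has hu hv x).fderiv]
  simp

private theorem CFrm_bd {u v : ℝ → ℝ} {A B : ℝ} (hA : ∀ t, |u t| ≤ A) (hB : ∀ t, |v t| ≤ B)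
    (x : P) : |u x.1 * v x.2| ≤ A * B := by
  rw [abs_mul]
  exact mul_le_mul (hA _) (hB _) (abs_nonneg _) ((abs_nonneg _).trans (hA 0))

private theorem CFrm_lip {u v u' v' : ℝ → ℝ} {A B A' B' : ℝ} (hu : ∀ t, HasDerivAt u (u' t) t)
    (hv : ∀ t, HasDerivAt v (v' t) t) (hA : ∀ t, |u t| ≤ A) (hB : ∀ t, |v t| ≤ B)
    (hA' : ∀ t, |u' t| ≤ A') (hB' : ∀ t, |v' t| ≤ B') :
    ∃ K, LipschitzWith K (fun x : P => u x.1 * v x.2) := by
  refine ⟨Real.toNNReal (A * B' + B * A'), lipschitzWith_of_nnnorm_fderiv_le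
    (fun x => (CFrm_has hu hv x).differentiableAt) fun x => ?_⟩
  rw [(CFrm_has hu hv x).fderiv, ← NNReal.coe_le_coe, coe_nnnorm, Real.coe_toNNReal']
  refine le_trans ?_ (le_max_left _ _)
  refine (norm_add_le _ _).trans (add_le_add ?_ ?_)
  · rw [norm_smul, norm_smul, Real.norm_eq_abs, Real.norm_eq_abs]
    refine mul_le_mul (hA _) ?_ (by positivity) ((abs_nonneg _).trans (hA 0))
    refine (mul_le_mul_of_nonneg_left (ContinuousLinearMap.norm_snd_le ℝ ℝ ℝ)
      (abs_nonneg _)).trans ?_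
    rw [mul_one]
    exact hB' _
  · rw [norm_smul, norm_smul, Real.norm_eq_abs, Real.norm_eq_abs]
    refine mul_le_mul (hB _) ?_ (by positivity) ((abs_nonneg _).trans (hB 0))
    refine (mul_le_mul_of_nonneg_left (ContinuousLinearMap.norm_fst_le ℝ ℝ ℝ)
      (abs_nonneg _)).trans ?_
    rw [mul_one]
    exact hA' _

private theorem CFrm_sin (c a t : ℝ) :
    HasDerivAt (fun t : ℝ => c * Real.sin (a * t)) (c * a * Real.cos (a * t)) t := by
  have h := ((((hasDerivAt_id t).const_mul a).sin).const_mul c)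
  refine h.congr_deriv ?_
  simp only [id]
  ring

private theorem CFrm_cos (c a t : ℝ) :
    HasDerivAt (fun t : ℝ => c * Real.cos (a * t)) (-(c * a) * Real.sin (a * t)) t := by
  have h := ((((hasDerivAt_id t).const_mul a).cos).const_mul c)
  refine h.congr_deriv ?_
  simp only [id]
  ring

private theorem CFrm_bs (c a t : ℝ) : |c * Real.sin (a * t)| ≤ |c| := by
  rw [abs_mul]
  exact mul_le_of_le_one_right (abs_nonneg _) (Real.abs_sin_le_one _)

private theorem CFrm_bc (c a t : ℝ) : |c * Real.cos (a * t)| ≤ |c| := by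
  rw [abs_mul]
  exact mul_le_of_le_one_right (abs_nonneg _) (Real.abs_cos_le_one _)

private theorem CFrm_data (p : ℕ × ℕ) : ∃ a b C : ℝ,
    ss p = (fun x : P => (2 * Real.sin (a * x.1)) * (1 * Real.sin (b * x.2))) ∧
    d1 (ss p) = (fun x : P => (2 * a * Real.cos (a * x.1)) * (1 * Real.sin (b * x.2))) ∧
    d2 (ss p) = (fun x : P => (2 * Real.sin (a * x.1)) * (1 * b * Real.cos (b * x.2))) ∧
    (∀ x, |ss p x| ≤ C) ∧ (∀ x, |d1 (ss p) x| ≤ C) ∧ (∀ x, |d2 (ss p) x| ≤ C) ∧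
    (∃ K, LipschitzWith K (d1 (ss p))) ∧ ∃ K, LipschitzWith K (d2 (ss p)) := by
  set a : ℝ := (p.1 + 1 : ℝ) * Real.pi with ha
  set b : ℝ := (p.2 + 1 : ℝ) * Real.pi with hb
  have h0 : ss p = (fun x : P => (2 * Real.sin (a * x.1)) * (1 * Real.sin (b * x.2))) := by
    funext x
    rw [ss, one_mul]
  have h1 : d1 (ss p) =
      (fun x : P => (2 * a * Real.cos (a * x.1)) * (1 * Real.sin (b * x.2))) := by
    rw [h0]
    exact CFrm_d1 (CFrm_sin 2 a) (CFrm_sin 1 b)
  have h2 : d2 (ss p) =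
      (fun x : P => (2 * Real.sin (a * x.1)) * (1 * b * Real.cos (b * x.2))) := by
    rw [h0]
    exact CFrm_d2 (CFrm_sin 2 a) (CFrm_sin 1 b)
  refine ⟨a, b, |(2 : ℝ)| * |(1 : ℝ)| + |2 * a| * |(1 : ℝ)| + |(2 : ℝ)| * |1 * b|, h0, h1, h2,
    fun x => ?_, fun x => ?_, fun x => ?_, ?_, ?_⟩
  · rw [h0]
    refine (CFrm_bd (CFrm_bs 2 a) (CFrm_bs 1 b) x).trans ?_
    have : 0 ≤ |2 * a| * |(1 : ℝ)| := by positivity
    have : 0 ≤ |(2 : ℝ)| * |1 * b| := by positivity
    linarith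
  · rw [h1]
    refine (CFrm_bd (CFrm_bc (2 * a) a) (CFrm_bs 1 b) x).trans ?_
    have : 0 ≤ |(2 : ℝ)| * |(1 : ℝ)| := by positivity
    have : 0 ≤ |(2 : ℝ)| * |1 * b| := by positivity
    linarith
  · rw [h2]
    refine (CFrm_bd (CFrm_bs 2 a) (CFrm_bc (1 * b) b) x).trans ?_
    have : 0 ≤ |(2 : ℝ)| * |(1 : ℝ)| := by positivity
    have : 0 ≤ |2 * a| * |(1 : ℝ)| := by positivity
    linarith
  · rw [h1]
    exact CFrm_lip (CFrm_cos (2 * a) a) (CFrm_sin 1 b) (CFrm_bc (2 * a) a) (CFrm_bs 1 b)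
      (CFrm_bs (-(2 * a * a)) a) (CFrm_bc (1 * b) b)
  · rw [h2]
    exact CFrm_lip (CFrm_sin 2 a) (CFrm_cos (1 * b) b) (CFrm_bs 2 a) (CFrm_bc (1 * b) b)
      (CFrm_bc (2 * a) a) (CFrm_bs (-(1 * b * b)) b)

theorem memLp_ss (p : ℕ × ℕ) : MemLp (ss p) 2 muT ∧ MemLp (d1 (ss p)) 2 muT ∧
    MemLp (d2 (ss p)) 2 muT := by
  obtain ⟨a, b, A, hss, hd1, hd2, h1, h2, h3, -, -⟩ := CFrm_data p
  exact ⟨memLp_bdd (contDiff_ss p).continuous.measurable h1, memLp_bdd (measurable_d1 _) h2,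
    memLp_bdd (measurable_d2 _) h3⟩

theorem frame_sT (f : LL) : HasSum (fun p => (inner ℝ (sT p) f : ℝ) ^ 2) (‖f‖ ^ 2) := by
  set F : P → ℝ := Tri.indicator (f : P → ℝ) with hF
  have hsub : Tri ⊆ Sq := by
    rintro v ⟨h1, h2, h3⟩
    exact ⟨⟨h1, by linarith⟩, ⟨h2, by linarith⟩⟩
  have hint : Sq ∩ Tri = Tri := inter_eq_right.2 hsub
  have hf : MemLp (f : P → ℝ) 2 muT := Lp.memLp f
  have hF1 : MemLp F 2 (volume.restrict Sq) :=
    ((memLp_indicator_iff_restrict measurableSet_Tri).2 hf).mono_measure Measure.restrict_le_self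
  have h := hasSum_ss F hF1
  have e1 : ∀ p, ∫ x in Sq, ss p x * F x = (inner ℝ (sT p) f : ℝ) := by
    intro p
    have e2 : (fun x => ss p x * F x) = Tri.indicator (fun x => ss p x * f x) := by
      funext x
      by_cases hx : x ∈ Tri
      · rw [indicator_of_mem hx, hF, indicator_of_mem hx]
      · rw [indicator_of_notMem hx, hF, indicator_of_notMem hx, mul_zero]
    rw [e2, setIntegral_indicator measurableSet_Tri, hint, L2.inner_def]
    refine integral_congr_ae ?_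
    filter_upwards [coeFn_clT (memLp_ss p).1] with x h1
    rw [sT, h1]
    simp [mul_comm]
  have e3 : ∫ x in Sq, F x ^ 2 = ‖f‖ ^ 2 := by
    have e2 : (fun x => F x ^ 2) = Tri.indicator (fun x => f x ^ 2) := by
      funext x
      by_cases hx : x ∈ Tri
      · rw [indicator_of_mem hx, hF, indicator_of_mem hx]
      · rw [indicator_of_notMem hx, hF, indicator_of_notMem hx]
        norm_num
    rw [e2, setIntegral_indicator measurableSet_Tri, hint, ← real_inner_self_eq_norm_sq,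
      L2.inner_def]
    refine integral_congr_ae (Eventually.of_forall fun x => ?_)
    simp [sq]
  rw [e3] at h
  simp only [e1] at h
  exact h

theorem sum4_lT : Summable (fun p => lT p ^ 4) := by
  have h : (fun p => lT p ^ 4) = fun p => (lams p)⁻¹ ^ 2 := by
    funext p
    have h1 : √(lams p) ^ 2 = lams p := Real.sq_sqrt (lams_pos p).le
    have h2 : √(lams p) ^ 4 = lams p ^ 2 := by
      rw [show (4 : ℕ) = 2 * 2 from rfl, pow_mul, h1]
    rw [lT, div_pow, h2, one_pow, inv_pow, one_div]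
  rw [h]
  exact summable_lams

private theorem CFrm_ibp {h f : P → ℝ} {K K' : NNReal} (hh : LipschitzWith K h)
    (hf : LipschitzWith K' f) (hc : HasCompactSupport f) (v : P) :
    ∫ x, fderiv ℝ h x v * f x = -∫ x, h x * fderiv ℝ f x v := by
  have h1 := hh.integral_lineDeriv_mul_eq (μ := (volume : Measure P)) hf hc v
  have h2 : ∫ x, fderiv ℝ h x v * f x = ∫ x, lineDeriv ℝ h x v * f x := by
    refine integral_congr_ae ?_
    filter_upwards [ae_diff hh] with x hx
    rw [hx.lineDeriv_eq_fderiv]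
  have h3 : ∫ x, lineDeriv ℝ f x (-v) * h x = -∫ x, h x * fderiv ℝ f x v := by
    rw [← integral_neg]
    refine integral_congr_ae ?_
    filter_upwards [ae_diff hf] with x hx
    rw [lineDeriv_neg, hx.lineDeriv_eq_fderiv]
    ring
  rw [h2, h1, h3]

private theorem CFrm_int {g h : P → ℝ} (hg : Measurable g) (hgc : Continuous g)
    (hh : Measurable h) {C : ℝ} (hb : ∀ x, |h x| ≤ C) (hs : HasCompactSupport h) :
    Integrable fun x => g x * h x := by
  obtain ⟨B, hB⟩ := hs.isCompact.exists_bound_of_continuousOn hgc.continuousOn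
  have hi : Integrable (fun x => (tsupport h).indicator (fun _ => (B * C : ℝ)) x) :=
    (integrable_indicator_iff (isClosed_tsupport h).measurableSet).2
      (integrableOn_const hs.isCompact.measure_lt_top.ne)
  refine hi.mono (hg.mul hh).aestronglyMeasurable (Eventually.of_forall fun x => ?_)
  by_cases hx : x ∈ tsupport h
  · rw [indicator_of_mem hx, norm_mul, Real.norm_eq_abs (B * C)]
    refine le_trans ?_ (le_abs_self _)
    exact mul_le_mul (hB x hx) (by rw [Real.norm_eq_abs]; exact hb x) (norm_nonneg _)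
      ((norm_nonneg _).trans (hB x hx))
  · rw [indicator_of_notMem hx, image_eq_zero_of_notMem_tsupport hx, mul_zero]

private theorem CFrm_int' {g h : P → ℝ} (hg : Measurable g) {C : ℝ} (hb : ∀ x, |g x| ≤ C)
    (hh : Continuous h) (hs : HasCompactSupport h) : Integrable fun x => g x * h x := by
  have h1 : Integrable h := hh.integrable_of_hasCompactSupport hs
  exact h1.bdd_mul hg.aestronglyMeasurable
    (Eventually.of_forall fun x => by rw [Real.norm_eq_abs]; exact hb x)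

theorem adj_sT (p : ℕ × ℕ) (f : LipS Tri) :
    (inner ℝ (sT p) (valT f) : ℝ) = lT p * inner ℝ (kT p) (grdT f) := by
  obtain ⟨a, b, C, -, -, -, -, -, -, ⟨K1, hK1⟩, ⟨K2, hK2⟩⟩ := CFrm_data p
  have hfL : LipC Tri f.1 := f.2
  obtain ⟨⟨K, hK⟩, hfc, hft⟩ := id hfL
  obtain ⟨m0, m1, m2⟩ := memLp_ss p
  have hval : (inner ℝ (sT p) (valT f) : ℝ) = ∫ x in Tri, ss p x * f.1 x :=
    inner_clT m0 hfL.memLp
  have hgrd : (inner ℝ (kT p) (grdT f) : ℝ) = 1 / √(lams p) *
      ∫ x in Tri, (d1 (ss p) x * d1 f.1 x + d2 (ss p) x * d2 f.1 x) := by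
    rw [kT, real_inner_smul_left]
    congr 1
    exact inner_prT m1 m2 (memLp_d1 hK) (memLp_d2 hK)
  have hoff : ∀ x, x ∉ Tri → f.1 x = 0 ∧ d1 f.1 x = 0 ∧ d2 f.1 x = 0 := by
    intro x hx
    have hx' : x ∉ tsupport f.1 := fun h => hx (hft h)
    exact ⟨image_eq_zero_of_notMem_tsupport hx', d1_zero_of_notMem hx', d2_zero_of_notMem hx'⟩
  have i1 : ∫ x in Tri, ss p x * f.1 x = ∫ x, ss p x * f.1 x :=
    setIntegral_eq_integral_of_forall_compl_eq_zero fun x hx => by rw [(hoff x hx).1, mul_zero]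
  have i2 : ∫ x in Tri, (d1 (ss p) x * d1 f.1 x + d2 (ss p) x * d2 f.1 x) =
      ∫ x, (d1 (ss p) x * d1 f.1 x + d2 (ss p) x * d2 f.1 x) :=
    setIntegral_eq_integral_of_forall_compl_eq_zero fun x hx => by
      rw [(hoff x hx).2.1, (hoff x hx).2.2, mul_zero, mul_zero, add_zero]
  have j1 : ∫ x, d1 (d1 (ss p)) x * f.1 x = -∫ x, d1 (ss p) x * d1 f.1 x :=
    CFrm_ibp hK1 hK hfc (1, 0)
  have j2 : ∫ x, d2 (d2 (ss p)) x * f.1 x = -∫ x, d2 (ss p) x * d2 f.1 x :=
    CFrm_ibp hK2 hK hfc (0, 1)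
  have c0 : Continuous (ss p) := (contDiff_ss p).continuous
  have g1 : Integrable fun x => d1 (ss p) x * d1 f.1 x :=
    CFrm_int hK1.continuous.measurable hK1.continuous (measurable_d1 _) (abs_d1_le hK)
      hfL.compact_d1
  have g2 : Integrable fun x => d2 (ss p) x * d2 f.1 x :=
    CFrm_int hK2.continuous.measurable hK2.continuous (measurable_d2 _) (abs_d2_le hK)
      hfL.compact_d2
  have g3 : Integrable fun x => d1 (d1 (ss p)) x * f.1 x :=
    CFrm_int' (measurable_d1 _) (abs_d1_le hK1) hfL.continuous hfc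
  have g4 : Integrable fun x => d2 (d2 (ss p)) x * f.1 x :=
    CFrm_int' (measurable_d2 _) (abs_d2_le hK2) hfL.continuous hfc
  have k1 : ∫ x, (d1 (ss p) x * d1 f.1 x + d2 (ss p) x * d2 f.1 x) =
      lams p * ∫ x, ss p x * f.1 x := by
    rw [integral_add g1 g2]
    have k2 : (∫ x, d1 (ss p) x * d1 f.1 x) + ∫ x, d2 (ss p) x * d2 f.1 x =
        -((∫ x, d1 (d1 (ss p)) x * f.1 x) + ∫ x, d2 (d2 (ss p)) x * f.1 x) := by
      rw [j1, j2]
      ring
    rw [k2, ← integral_add g3 g4, ← integral_const_mul, ← integral_neg]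
    refine integral_congr_ae (Eventually.of_forall fun x => ?_)
    have := lap_ss p x
    show -(d1 (d1 (ss p)) x * f.1 x + d2 (d2 (ss p)) x * f.1 x) = lams p * (ss p x * f.1 x)
    rw [← add_mul, this]
    ring
  rw [hval, hgrd, i1, i2, k1, lT]
  have h1 : √(lams p) * √(lams p) = lams p := Real.mul_self_sqrt (lams_pos p).le
  have h2 : √(lams p) ≠ 0 := (Real.sqrt_pos.2 (lams_pos p)).ne'
  field_simp
  rw [pow_two, h1]

end Pool.Agent.MP4eed4eP
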