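import Pool.Agent.Lib.MP_4eed4e_an_PC.CBase

set_option autoImplicit false

/-!
Project P, block C, module CMol: mollification of a Lipschitz function with compact support.

Proof of `exists_moll`. `K = tsupport f` is compact and contained in the open set `D`; let `δ > 0` be such
that the closed `δ`-neighbourhood of `K` (`Metric.cthickening δ K`, compact) is contained in `D`
(`IsCompact.exists_cthickening_subset_open`). For `n` large let `φ_n` be the normed bump function with
outer radius `δ_n → 0`, `δ_n < δ` (`ContDiffBump`, `ContDiffBump.normed`, centre `0`, `rOut = δ_n`,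
`rIn = δ_n / 2`), and `g_n x = ∫ φ_n t * f (x - t) dt` (`MeasureTheory.convolution (φ_n.normed volume) f
(ContinuousLinearMap.lsmul ℝ ℝ) volume`). Then
* `g_n` is smooth (`HasCompactSupport.contDiff_convolution_left`), `support g_n ⊆ K + ball 0 δ_n`, so
  `tsupport g_n ⊆ Metric.cthickening δ K ⊆ D`, and `g_n` has compact support;
* `|g_n x - f x| ≤ Lip(f) δ_n` for all `x` (`∫ φ_n = 1`), and both functions vanish off the compact set
  `Metric.cthickening δ K`, so `l2 (g_n - f) ≤ (Lip(f) δ_n)² volume (cthickening δ K) → 0`;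
* for every `x`: `fderiv ℝ g_n x v = ∫ φ_n t * fderiv ℝ f (x - t) v dt` (differentiation under the integral:
  `hasFDerivAt_integral_of_dominated_loc_of_lip`; for almost every `t` the function `f` is differentiable at
  `x - t` by Rademacher's theorem, because `t ↦ x - t` preserves null sets, and `x ↦ φ_n t * f (x - t)`
  is Lipschitz with constant `φ_n t * Lip(f)`);
* so `d1 g_n = φ_n ⋆ d1 f`, and `(φ_n ⋆ d1 f) x → d1 f x` for almost every `x`
  (`ContDiffBump.ae_convolution_tendsto_right_of_locallyIntegrable`; `d1 f` is bounded and measurable,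
  so locally integrable; the ratio `rOut / rIn = 2` is bounded); the same for `d2`;
* all these functions are bounded by `Lip(f)` and vanish off `cthickening δ K`; by dominated convergence
  `∫ (d1 g_n - d1 f)² + (d2 g_n - d2 f)² → 0`; and `d1 (g_n - f) = d1 g_n - d1 f` almost everywhere.
-/

namespace Pool.Agent.MP4eed4eP

open MeasureTheory Set Filter Topology

/-- the mollified function -/
private noncomputable def cmG (φ : ContDiffBump (0 : P)) (f : P → ℝ) : P → ℝ :=
  convolution (φ.normed volume) f (ContinuousLinearMap.lsmul ℝ ℝ) volume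

private theorem cmG_apply (φ : ContDiffBump (0 : P)) (f : P → ℝ) (x : P) :
    cmG φ f x = ∫ t, φ.normed volume t * f (x - t) := by
  simp [cmG, convolution_def]

private theorem cm_int (φ : ContDiffBump (0 : P)) {f : P → ℝ} (hf : Continuous f) (x : P) :
    Integrable (fun t => φ.normed (volume : Measure P) t * f (x - t)) := by
  have h1 : Continuous (φ.normed (volume : Measure P)) := φ.continuous_normed
  refine Continuous.integrable_of_hasCompactSupport
    (h1.mul (hf.comp (continuous_const.sub continuous_id))) ?_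
  exact φ.hasCompactSupport_normed.mul_right

private theorem cm_lip (φ : ContDiffBump (0 : P)) {f : P → ℝ} {K : NNReal}
    (hf : LipschitzWith K f) : LipschitzWith K (cmG φ f) := by
  refine LipschitzWith.of_dist_le_mul fun x y => ?_
  rw [Real.dist_eq, cmG_apply, cmG_apply,
    ← integral_sub (cm_int φ hf.continuous x) (cm_int φ hf.continuous y)]
  have hi : Integrable (fun t => φ.normed (volume : Measure P) t * (K * dist x y)) :=
    φ.integrable_normed.mul_const _
  have h1 : ∀ t, ‖φ.normed (volume : Measure P) t * f (x - t) -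
      φ.normed (volume : Measure P) t * f (y - t)‖ ≤
      φ.normed (volume : Measure P) t * (K * dist x y) := by
    intro t
    rw [← mul_sub, norm_mul, Real.norm_eq_abs, abs_of_nonneg (φ.nonneg_normed t)]
    refine mul_le_mul_of_nonneg_left ?_ (φ.nonneg_normed t)
    have h2 := hf.dist_le_mul (x - t) (y - t)
    rw [dist_sub_right] at h2
    rwa [Real.norm_eq_abs, ← Real.dist_eq]
  have h2 := norm_integral_le_of_norm_le hi (Eventually.of_forall h1)
  rw [integral_mul_const, φ.integral_normed, one_mul] at h2
  rwa [Real.norm_eq_abs] at h2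

private theorem cm_deriv (φ : ContDiffBump (0 : P)) {f : P → ℝ} {K : NNReal}
    (hf : LipschitzWith K f) (x : P) :
    Integrable (fun t => φ.normed (volume : Measure P) t • fderiv ℝ f (x - t)) volume ∧
      HasFDerivAt (fun y => ∫ t, φ.normed (volume : Measure P) t * f (y - t))
        (∫ t, φ.normed (volume : Measure P) t • fderiv ℝ f (x - t)) x := by
  have hm : Measurable (φ.normed (volume : Measure P)) := φ.continuous_normed.measurable
  refine hasFDerivAt_integral_of_dominated_loc_of_lip (μ := (volume : Measure P)) (𝕜 := ℝ)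
    (F := fun (y : P) (t : P) => φ.normed (volume : Measure P) t * f (y - t))
    (F' := fun t => φ.normed (volume : Measure P) t • fderiv ℝ f (x - t))
    (bound := fun t => φ.normed (volume : Measure P) t * K) (x₀ := x) (s := univ) univ_mem
    (Eventually.of_forall fun y => (cm_int φ hf.continuous y).aestronglyMeasurable)
    (cm_int φ hf.continuous x) ?_ ?_ ?_ ?_
  · exact (hm.smul ((measurable_fderiv ℝ f).comp
      (measurable_const.sub measurable_id))).aestronglyMeasurable
  · refine Eventually.of_forall fun t => ?_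
    refine LipschitzOnWith.of_dist_le_mul fun y _ z _ => ?_
    have h2 := hf.dist_le_mul (y - t) (z - t)
    rw [dist_sub_right] at h2
    have h3 : 0 ≤ φ.normed (volume : Measure P) t * K :=
      mul_nonneg (φ.nonneg_normed t) K.coe_nonneg
    rw [Real.coe_nnabs, abs_of_nonneg h3, Real.dist_eq, ← mul_sub, abs_mul,
      abs_of_nonneg (φ.nonneg_normed t), mul_assoc, ← Real.dist_eq]
    exact mul_le_mul_of_nonneg_left h2 (φ.nonneg_normed t)
  · exact φ.integrable_normed.mul_const _
  · have h1 : ∀ᵐ t : P, DifferentiableAt ℝ f (x - t) :=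
      (quasiMeasurePreserving_sub_left (volume : Measure P) x).ae (ae_diff hf)
    filter_upwards [h1] with t ht
    have h2 : HasFDerivAt (fun y : P => y - t) (ContinuousLinearMap.id ℝ P) x :=
      (hasFDerivAt_id x).sub_const t
    have h3 : HasFDerivAt (fun y : P => f (y - t))
        ((fderiv ℝ f (x - t)).comp (ContinuousLinearMap.id ℝ P)) x :=
      HasFDerivAt.comp (g := f) x ht.hasFDerivAt h2
    rw [ContinuousLinearMap.comp_id] at h3
    exact h3.const_mul _

private theorem cm_diff (φ : ContDiffBump (0 : P)) {f : P → ℝ} {K : NNReal}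
    (hf : LipschitzWith K f) (x : P) : HasFDerivAt (cmG φ f)
      (∫ t, φ.normed (volume : Measure P) t • fderiv ℝ f (x - t)) x := by
  have h := (cm_deriv φ hf x).2
  have h1 : cmG φ f = fun y => ∫ t, φ.normed (volume : Measure P) t * f (y - t) := by
    funext y; exact cmG_apply φ f y
  rw [h1]
  exact h

private theorem cm_fd (φ : ContDiffBump (0 : P)) {f : P → ℝ} {K : NNReal}
    (hf : LipschitzWith K f) (x v : P) :
    fderiv ℝ (cmG φ f) x v = cmG φ (fun y => fderiv ℝ f y v) x := by
  rw [(cm_diff φ hf x).fderiv, ContinuousLinearMap.integral_apply (cm_deriv φ hf x).1,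
    cmG_apply]
  rfl

private theorem cm_supp (φ : ContDiffBump (0 : P)) (f : P → ℝ) :
    tsupport (cmG φ f) ⊆ Metric.cthickening φ.rOut (tsupport f) := by
  refine closure_minimal (fun x hx => ?_) Metric.isClosed_cthickening
  by_contra hn
  refine hx ?_
  rw [cmG_apply]
  have h0 : ∀ t, φ.normed (volume : Measure P) t * f (x - t) = 0 := by
    intro t
    by_contra h1
    have h2 := left_ne_zero_of_mul h1
    have h3 := right_ne_zero_of_mul h1
    have h4 : t ∈ Function.support (φ.normed (volume : Measure P)) := h2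
    rw [φ.support_normed_eq] at h4
    refine hn (Metric.mem_cthickening_of_dist_le x (x - t) _ _ (subset_tsupport f h3) ?_)
    have h5 : ‖t‖ < φ.rOut := by simpa using h4
    have h6 : dist x (x - t) = ‖t‖ := by
      rw [dist_eq_norm]; congr 1; abel
    rw [h6]
    exact h5.le
  simp [h0]

private theorem cm_dist (φ : ContDiffBump (0 : P)) {f : P → ℝ} {K : NNReal}
    (hf : LipschitzWith K f) (x : P) : |cmG φ f x - f x| ≤ K * φ.rOut := by
  have h := ContDiffBump.dist_normed_convolution_le (φ := φ) (x₀ := x) (g := f)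
    (μ := (volume : Measure P)) (ε := K * φ.rOut) hf.continuous.aestronglyMeasurable
    (fun y hy => ?_)
  · exact h
  · refine (hf.dist_le_mul y x).trans ?_
    exact mul_le_mul_of_nonneg_left (Metric.mem_ball.1 hy).le K.coe_nonneg

theorem exists_moll {D : Set P} (hD : IsOpen D) {f : P → ℝ} (hf : LipC D f) {ε : ℝ} (hε : 0 < ε) :
    ∃ g : P → ℝ, ContDiff ℝ 1 g ∧ HasCompactSupport g ∧ tsupport g ⊆ D ∧ LipC D g ∧
      en (g - f) ≤ ε ∧ l2 (g - f) ≤ ε := by
  obtain ⟨⟨K, hK⟩, hc, hs⟩ := hf
  obtain ⟨δ, hδ, hδD⟩ := hc.isCompact.exists_cthickening_subset_open hD hs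
  obtain ⟨φ, hφi, hφo⟩ : ∃ φ : ℕ → ContDiffBump (0 : P),
      (∀ n : ℕ, (φ n).rIn = δ / (2 * ((n : ℝ) + 1))) ∧ ∀ n : ℕ, (φ n).rOut = δ / ((n : ℝ) + 1) := by
    refine ⟨fun n => ⟨δ / (2 * ((n : ℝ) + 1)), δ / ((n : ℝ) + 1), by positivity, ?_⟩,
      fun _ => rfl, fun _ => rfl⟩
    refine div_lt_div_of_pos_left hδ (by positivity) ?_
    have : (0 : ℝ) ≤ n := Nat.cast_nonneg n
    linarith
  obtain ⟨C, hC⟩ : ∃ C, C = Metric.cthickening δ (tsupport f) := ⟨_, rfl⟩
  have hCc : IsCompact C := by rw [hC]; exact hc.isCompact.cthickening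
  have hCD : C ⊆ D := by rw [hC]; exact hδD
  have hoδ : ∀ n, (φ n).rOut ≤ δ := by
    intro n
    rw [hφo, div_le_iff₀ (by positivity)]
    have : (0 : ℝ) ≤ n := Nat.cast_nonneg n
    nlinarith
  have ho0 : Tendsto (fun n => (φ n).rOut) atTop (𝓝 0) := by
    simp only [hφo]
    exact (tendsto_const_div_atTop_nhds_zero_nat δ).comp (tendsto_add_atTop_nat 1) |>.congr
      fun n => by simp
  have hsup : ∀ n, tsupport (cmG (φ n) f) ⊆ C := by
    intro n
    rw [hC]
    exact (cm_supp (φ n) f).trans (Metric.cthickening_mono (hoδ n) _)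
  have hfC : tsupport f ⊆ C := by
    rw [hC]; exact Metric.self_subset_cthickening _
  have hlip : ∀ n, LipschitzWith K (cmG (φ n) f) := fun n => cm_lip (φ n) hK
  have hz : ∀ n x, x ∉ C → cmG (φ n) f x = 0 := fun n x hx =>
    image_eq_zero_of_notMem_tsupport fun h => hx (hsup n h)
  have hz' : ∀ x, x ∉ C → f x = 0 := fun x hx =>
    image_eq_zero_of_notMem_tsupport fun h => hx (hfC h)
  have hsd : ∀ n, tsupport (cmG (φ n) f - f) ⊆ C := by
    intro n
    refine closure_minimal (fun x hx => ?_) hCc.isClosed
    by_contra h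
    refine hx ?_
    simp [hz n x h, hz' x h]
  have hsm : ∀ n, ContDiff ℝ 1 (cmG (φ n) f) := by
    intro n
    have := (φ n).hasCompactSupport_normed (μ := (volume : Measure P))
    exact HasCompactSupport.contDiff_convolution_left (𝕜 := ℝ) (n := 1)
      (ContinuousLinearMap.lsmul ℝ ℝ) this (φ n).contDiff_normed
      hK.continuous.locallyIntegrable
  have hdist : ∀ n x, |cmG (φ n) f x - f x| ≤ K * (φ n).rOut := fun n x => cm_dist (φ n) hK x
  have hbI : ∀ r : ℝ, Integrable (C.indicator fun _ => r) (volume : Measure P) := by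
    intro r
    rw [integrable_indicator_iff hCc.measurableSet]
    exact integrableOn_const hCc.measure_lt_top.ne
  -- the values
  have h2 : Tendsto (fun n => l2 (cmG (φ n) f - f)) atTop (𝓝 0) := by
    have h := tendsto_integral_of_dominated_convergence (μ := (volume : Measure P))
      (F := fun n x => (cmG (φ n) f - f) x ^ 2) (f := fun _ => 0)
      (C.indicator fun _ => (K * δ) ^ 2) (fun n => ?_) (hbI _) (fun n => ?_) ?_
    · simpa [l2] using h
    · exact (((hlip n).continuous.sub hK.continuous).pow 2).aestronglyMeasurable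
    · refine Eventually.of_forall fun x => ?_
      by_cases hx : x ∈ C
      · rw [indicator_of_mem hx, norm_pow, Real.norm_eq_abs]
        refine pow_le_pow_left₀ (abs_nonneg _) ?_ 2
        exact (hdist n x).trans (mul_le_mul_of_nonneg_left (hoδ n) K.coe_nonneg)
      · rw [indicator_of_notMem hx]
        simp [hz n x hx, hz' x hx]
    · refine Eventually.of_forall fun x => ?_
      have h1 : Tendsto (fun n => cmG (φ n) f x - f x) atTop (𝓝 0) := by
        refine squeeze_zero_norm (fun n => ?_) (by simpa using ho0.const_mul (K : ℝ))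
        rw [Real.norm_eq_abs]
        exact hdist n x
      simpa using h1.pow 2
  -- the derivatives
  have hli : ∀ v : P, LocallyIntegrable (fun y => fderiv ℝ f y v) (volume : Measure P) := by
    intro v
    have hb : ∀ y, ‖fderiv ℝ f y v‖ ≤ K * ‖v‖ := fun y =>
      ((fderiv ℝ f y).le_opNorm v).trans (mul_le_mul_of_nonneg_right
        (norm_fderiv_le_of_lipschitz ℝ hK) (norm_nonneg _))
    have hm : MemLp (fun y => fderiv ℝ f y v) ⊤ (volume : Measure P) :=
      memLp_top_of_bound (measurable_fderiv_apply_const ℝ f v).aestronglyMeasurable _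
        (Eventually.of_forall hb)
    exact hm.locallyIntegrable le_top
  have hlim : ∀ v : P, ∀ᵐ x : P, Tendsto (fun n => cmG (φ n) (fun y => fderiv ℝ f y v) x) atTop
      (𝓝 (fderiv ℝ f x v)) := by
    intro v
    refine ContDiffBump.ae_convolution_tendsto_right_of_locallyIntegrable (K := 2) ho0
      (Eventually.of_forall fun n => ?_) (hli v)
    rw [hφi, hφo]
    refine le_of_eq ?_
    have : (n : ℝ) + 1 ≠ 0 := by positivity
    field_simp
  have h1 : Tendsto (fun n => en (cmG (φ n) f - f)) atTop (𝓝 0) := by
    have h := tendsto_integral_of_dominated_convergence (μ := (volume : Measure P))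
      (F := fun n x => d1 (cmG (φ n) f - f) x ^ 2 + d2 (cmG (φ n) f - f) x ^ 2)
      (f := fun _ => 0)
      (C.indicator fun _ => ((K + K : NNReal) : ℝ) ^ 2 + ((K + K : NNReal) : ℝ) ^ 2)
      (fun n => ?_) (hbI _) (fun n => ?_) ?_
    · simpa [en] using h
    · exact (((measurable_d1 _).pow_const 2).add ((measurable_d2 _).pow_const 2)
        ).aestronglyMeasurable
    · refine Eventually.of_forall fun x => ?_
      by_cases hx : x ∈ C
      · rw [indicator_of_mem hx, Real.norm_eq_abs, abs_of_nonneg (by positivity)]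
        have e1 := abs_d1_le ((hlip n).sub hK) x
        have e2 := abs_d2_le ((hlip n).sub hK) x
        refine add_le_add ?_ ?_
        · rw [← sq_abs]; exact pow_le_pow_left₀ (abs_nonneg _) e1 2
        · rw [← sq_abs]; exact pow_le_pow_left₀ (abs_nonneg _) e2 2
      · rw [indicator_of_notMem hx, d1_zero_of_notMem fun h => hx (hsd n h),
          d2_zero_of_notMem fun h => hx (hsd n h)]
        simp
    · filter_upwards [ae_diff hK, hlim (1, 0), hlim (0, 1)] with x hx e1 e2
      have g1 : ∀ n, d1 (cmG (φ n) f - f) x =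
          cmG (φ n) (fun y => fderiv ℝ f y (1, 0)) x - fderiv ℝ f x (1, 0) := by
        intro n
        rw [← cm_fd (φ n) hK]
        simp [d1, fderiv_sub (cm_diff (φ n) hK x).differentiableAt hx]
      have g2 : ∀ n, d2 (cmG (φ n) f - f) x =
          cmG (φ n) (fun y => fderiv ℝ f y (0, 1)) x - fderiv ℝ f x (0, 1) := by
        intro n
        rw [← cm_fd (φ n) hK]
        simp [d2, fderiv_sub (cm_diff (φ n) hK x).differentiableAt hx]
      simp only [g1, g2]
      have k1 : Tendsto (fun n => cmG (φ n) (fun y => fderiv ℝ f y (1, 0)) x -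
          fderiv ℝ f x (1, 0)) atTop (𝓝 0) := by
        simpa using e1.sub_const (fderiv ℝ f x (1, 0))
      have k2 : Tendsto (fun n => cmG (φ n) (fun y => fderiv ℝ f y (0, 1)) x -
          fderiv ℝ f x (0, 1)) atTop (𝓝 0) := by
        simpa using e2.sub_const (fderiv ℝ f x (0, 1))
      simpa using (k1.pow 2).add (k2.pow 2)
  obtain ⟨n, hn1, hn2⟩ := ((h1.eventually_lt_const hε).and (h2.eventually_lt_const hε)).exists
  have hcs : HasCompactSupport (cmG (φ n) f) :=
    HasCompactSupport.of_support_subset_isCompact hCc (subset_closure.trans (hsup n))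
  exact ⟨cmG (φ n) f, hsm n, hcs, (hsup n).trans hCD,
    ⟨⟨K, hlip n⟩, hcs, (hsup n).trans hCD⟩, hn1.le, hn2.le⟩

end Pool.Agent.MP4eed4eP
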