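import Pool.Agent.Lib.MP_4eed4e_an_PC.CEig
import Pool.Agent.Lib.MP_4eed4e_an_PC.CMol
import Pool.Agent.Lib.MP_4eed4e_an_PC.CForm

set_option autoImplicit false

/-!
Project P, block C, module CLam: the min-max values over `C¹` functions and over Lipschitz functions are
equal.

Proof of `lamC_eq`. For `k = 0` both sets of numbers are `univ` (take `V = ⊥`), so both values are
`sInf univ = 0`. Let `k ≥ 1`. A `C¹` function with compact support is Lipschitz
(`ContDiff.lipschitzWith_of_hasCompactSupport`), so the set of `lamC` is contained in the set of `lamL`.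
If the set of `lamL` is empty both are empty and the values are equal. Both sets are bounded below by `0`
(for `r` in the set take `f ∈ V`, `f ≠ 0`: `0 ≤ en f ≤ r * l2 f`, `l2 f > 0`), so `lamL D k ≤ lamC D k` once
the set of `lamC` is not empty. It remains: for `r` in the set of `lamL` and `η > 0` there is an element
`≤ r + η` in the set of `lamC`. Let `V` be the space of `r`, `f_1, .., f_k` a basis of `V`
(`Module.finBasisOfFinrankEq`; the `f_i` are linearly independent functions), `C` the constant of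
`exists_coef_bound`, `ε > 0` small, `g_i` the functions of `exists_moll` for `f_i` and `ε ^ 2`,
`V'` the span of the `g_i`. For `x : Fin k → ℝ`, `f = ∑ x_i f_i`, `g = ∑ x_i g_i`, `u = √(l2 f)`:
`√(en (g - f)) ≤ ∑ |x_i| ε ≤ C ε u`, `√(l2 (g - f)) ≤ C ε u`, so `√(en g) ≤ √(en f) + C ε u ≤
(√r + C ε) u` and `√(l2 g) ≥ (1 - C ε) u` (`r ≥ 0`, `en f ≤ r u²`). If `C ε < 1` then `g = 0` only for `u = 0`,
i.e. `x = 0`: the `g_i` are linearly independent and `V'` has dimension `k`; and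
`en g ≤ ((√r + C ε) / (1 - C ε))² l2 g ≤ (r + η) l2 g` for `ε` small (the bracket tends to `√r`).
-/

namespace Pool.Agent.MP4eed4eP

open MeasureTheory Set Filter Topology

private theorem sqrt_en_sum {D : Set P} {k : ℕ} (h : Fin k → P → ℝ) (hh : ∀ i, LipC D (h i))
    (x : Fin k → ℝ) (s : Finset (Fin k)) :
    √(en (∑ i ∈ s, x i • h i)) ≤ ∑ i ∈ s, |x i| * √(en (h i)) := by
  classical
  induction s using Finset.induction_on with
  | empty =>
    have h0 : en (0 : P → ℝ) = 0 := by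
      have := en_smul 0 (0 : P → ℝ)
      simpa using this
    simp [h0]
  | insert a s ha ih =>
    rw [Finset.sum_insert ha, Finset.sum_insert ha]
    have h1 : LipC D (x a • h a) := (hh a).smul (x a)
    have h2 : LipC D (∑ i ∈ s, x i • h i) :=
      (LipS D).sum_mem fun i _ => (hh i).smul (x i)
    refine (sqrt_en_add h1 h2).trans (add_le_add ?_ ih)
    rw [en_smul, Real.sqrt_mul (sq_nonneg _), Real.sqrt_sq_eq_abs]

private theorem sqrt_l2_sum {D : Set P} {k : ℕ} (h : Fin k → P → ℝ) (hh : ∀ i, LipC D (h i))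
    (x : Fin k → ℝ) (s : Finset (Fin k)) :
    √(l2 (∑ i ∈ s, x i • h i)) ≤ ∑ i ∈ s, |x i| * √(l2 (h i)) := by
  classical
  induction s using Finset.induction_on with
  | empty =>
    have h0 : l2 (0 : P → ℝ) = 0 := by
      have := l2_smul 0 (0 : P → ℝ)
      simpa using this
    simp [h0]
  | insert a s ha ih =>
    rw [Finset.sum_insert ha, Finset.sum_insert ha]
    have h1 : LipC D (x a • h a) := (hh a).smul (x a)
    have h2 : LipC D (∑ i ∈ s, x i • h i) :=
      (LipS D).sum_mem fun i _ => (hh i).smul (x i)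
    refine (sqrt_l2_add h1 h2).trans (add_le_add ?_ ih)
    rw [l2_smul, Real.sqrt_mul (sq_nonneg _), Real.sqrt_sq_eq_abs]

private theorem lamL_nonneg {D : Set P} {k : ℕ} (hk : 0 < k) {r : ℝ} {V : Submodule ℝ (P → ℝ)}
    (hV : Module.finrank ℝ V = k) (h : ∀ f ∈ V, LipC D f ∧ en f ≤ r * l2 f) : 0 ≤ r := by
  have h1 : 0 < Module.finrank ℝ V := by omega
  have h2 : V ≠ ⊥ := by
    rintro rfl
    rw [finrank_bot] at h1
    exact lt_irrefl _ h1
  obtain ⟨f, hf, hf0⟩ := V.exists_mem_ne_zero_of_ne_bot h2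
  obtain ⟨h3, h4⟩ := h f hf
  have h5 := l2_pos h3 hf0
  have h6 := en_nonneg f
  by_contra h7
  push Not at h7
  have h8 := mul_neg_of_neg_of_pos h7 h5
  linarith

private theorem lam_step {D : Set P} (hD : IsOpen D) {k : ℕ} (hk : 0 < k) {r η : ℝ} (hη : 0 < η)
    {V : Submodule ℝ (P → ℝ)} (hV : Module.finrank ℝ V = k)
    (h : ∀ f ∈ V, LipC D f ∧ en f ≤ r * l2 f) :
    ∃ V : Submodule ℝ (P → ℝ), Module.finrank ℝ V = k ∧
      ∀ f ∈ V, ContDiff ℝ 1 f ∧ HasCompactSupport f ∧ tsupport f ⊆ D ∧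
        en f ≤ (r + η) * l2 f := by
  have hr : 0 ≤ r := lamL_nonneg hk hV h
  have hfin : Module.Finite ℝ V := Module.finite_of_finrank_pos (by omega)
  set b := Module.finBasisOfFinrankEq ℝ V hV with hb
  set f : Fin k → P → ℝ := fun i => (b i : P → ℝ) with hf
  have hfV : ∀ i, f i ∈ V := fun i => (b i).2
  have hfL : ∀ i, LipC D (f i) := fun i => (h _ (hfV i)).1
  have hli : LinearIndependent ℝ f :=
    b.linearIndependent.map' V.subtype (Submodule.ker_subtype V)
  obtain ⟨C, hC, hCx⟩ := exists_coef_bound f hfL hli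
  -- the choice of `ε`
  obtain ⟨ε, hε, hε1, hε2⟩ : ∃ ε : ℝ, 0 < ε ∧ C * ε < 1 ∧
      ((√r + C * ε) / (1 - C * ε)) ^ 2 < r + η := by
    have hc1 : ContinuousAt (fun ε : ℝ => C * ε) 0 := by fun_prop
    have hc2 : ContinuousAt (fun ε : ℝ => ((√r + C * ε) / (1 - C * ε)) ^ 2) 0 := by
      refine ContinuousAt.pow (ContinuousAt.div (by fun_prop) (by fun_prop) ?_) 2
      simp
    have e1 : ∀ᶠ ε : ℝ in 𝓝 0, C * ε < 1 := by
      refine hc1.eventually_lt continuousAt_const ?_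
      simp
    have e2 : ∀ᶠ ε : ℝ in 𝓝 0, ((√r + C * ε) / (1 - C * ε)) ^ 2 < r + η := by
      refine hc2.eventually_lt continuousAt_const ?_
      simp only [mul_zero, add_zero, sub_zero, div_one]
      rw [Real.sq_sqrt hr]
      linarith
    have e3 : ∀ᶠ ε : ℝ in 𝓝[>] 0, C * ε < 1 ∧ ((√r + C * ε) / (1 - C * ε)) ^ 2 < r + η :=
      (e1.and e2).filter_mono nhdsWithin_le_nhds
    obtain ⟨ε, h1, h2⟩ := (e3.and self_mem_nhdsWithin).exists
    exact ⟨ε, h2, h1.1, h1.2⟩
  have hε' : 0 < ε ^ 2 := by positivity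
  choose g hg1 hg2 hg3 hg4 hg5 hg6 using fun i => exists_moll hD (hfL i) hε'
  have hd : ∀ i, LipC D (g i - f i) := fun i => (LipS D).sub_mem (hg4 i) (hfL i)
  have hgL : ∀ x : Fin k → ℝ, LipC D (∑ i, x i • g i) := fun x =>
    (LipS D).sum_mem fun i _ => (hg4 i).smul (x i)
  have hfL' : ∀ x : Fin k → ℝ, LipC D (∑ i, x i • f i) := fun x =>
    (LipS D).sum_mem fun i _ => (hfL i).smul (x i)
  have hdL : ∀ x : Fin k → ℝ, LipC D (∑ i, x i • (g i - f i)) := fun x =>
    (LipS D).sum_mem fun i _ => (hd i).smul (x i)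
  have hsum : ∀ x : Fin k → ℝ,
      ∑ i, x i • g i = ∑ i, x i • f i + ∑ i, x i • (g i - f i) := by
    intro x
    rw [← Finset.sum_add_distrib]
    refine Finset.sum_congr rfl fun i _ => ?_
    rw [smul_sub]
    abel
  have hsum' : ∀ x : Fin k → ℝ,
      ∑ i, x i • f i = ∑ i, x i • g i + (-1 : ℝ) • ∑ i, x i • (g i - f i) := by
    intro x
    rw [hsum x, neg_one_smul]
    abel
  -- the estimates
  have hen : ∀ x : Fin k → ℝ, √(en (∑ i, x i • (g i - f i))) ≤
      C * ε * √(l2 (∑ i, x i • f i)) := by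
    intro x
    have h1 : ∀ i, √(en (g i - f i)) ≤ ε := fun i => by
      rw [← Real.sqrt_sq hε.le]
      exact Real.sqrt_le_sqrt (hg5 i)
    calc √(en (∑ i, x i • (g i - f i))) ≤ ∑ i, |x i| * √(en (g i - f i)) :=
          sqrt_en_sum _ hd x Finset.univ
      _ ≤ ∑ i, |x i| * ε :=
          Finset.sum_le_sum fun i _ => mul_le_mul_of_nonneg_left (h1 i) (abs_nonneg _)
      _ = ε * ∑ i, |x i| := by rw [← Finset.sum_mul, mul_comm]
      _ ≤ ε * (C * √(l2 (∑ i, x i • f i))) := mul_le_mul_of_nonneg_left (hCx x) hε.le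
      _ = _ := by ring
  have hl2 : ∀ x : Fin k → ℝ, √(l2 (∑ i, x i • (g i - f i))) ≤
      C * ε * √(l2 (∑ i, x i • f i)) := by
    intro x
    have h1 : ∀ i, √(l2 (g i - f i)) ≤ ε := fun i => by
      rw [← Real.sqrt_sq hε.le]
      exact Real.sqrt_le_sqrt (hg6 i)
    calc √(l2 (∑ i, x i • (g i - f i))) ≤ ∑ i, |x i| * √(l2 (g i - f i)) :=
          sqrt_l2_sum _ hd x Finset.univ
      _ ≤ ∑ i, |x i| * ε :=
          Finset.sum_le_sum fun i _ => mul_le_mul_of_nonneg_left (h1 i) (abs_nonneg _)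
      _ = ε * ∑ i, |x i| := by rw [← Finset.sum_mul, mul_comm]
      _ ≤ ε * (C * √(l2 (∑ i, x i • f i))) := mul_le_mul_of_nonneg_left (hCx x) hε.le
      _ = _ := by ring
  have hlow : ∀ x : Fin k → ℝ,
      (1 - C * ε) * √(l2 (∑ i, x i • f i)) ≤ √(l2 (∑ i, x i • g i)) := by
    intro x
    have h1 := sqrt_l2_add (hgL x) ((hdL x).smul (-1))
    rw [← hsum' x, l2_smul, neg_one_sq, one_mul] at h1
    have h2 := hl2 x
    linarith
  have hup : ∀ x : Fin k → ℝ,
      √(en (∑ i, x i • g i)) ≤ (√r + C * ε) * √(l2 (∑ i, x i • f i)) := by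
    intro x
    have h1 := sqrt_en_add (hfL' x) (hdL x)
    rw [← hsum x] at h1
    have h2 := hen x
    have h3 : √(en (∑ i, x i • f i)) ≤ √r * √(l2 (∑ i, x i • f i)) := by
      rw [← Real.sqrt_mul hr]
      exact Real.sqrt_le_sqrt
        (h _ (V.sum_mem fun i _ => V.smul_mem (x i) (hfV i))).2
    linarith
  have hpos : 0 < 1 - C * ε := by linarith
  have hlin : LinearIndependent ℝ g := by
    rw [Fintype.linearIndependent_iff]
    intro x hx i
    have h1 := hlow x
    have h0 : l2 (0 : P → ℝ) = 0 := by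
      have := l2_smul 0 (0 : P → ℝ)
      simpa using this
    rw [hx, h0, Real.sqrt_zero] at h1
    have h2 : √(l2 (∑ i, x i • f i)) ≤ 0 := by
      by_contra h3
      push Not at h3
      have := mul_pos hpos h3
      linarith
    have h3 := hCx x
    have h4 : C * √(l2 (∑ i, x i • f i)) ≤ 0 := mul_nonpos_of_nonneg_of_nonpos hC.le h2
    have h5 : |x i| ≤ ∑ i, |x i| :=
      Finset.single_le_sum (f := fun i => |x i|) (fun i _ => abs_nonneg _) (Finset.mem_univ i)
    exact abs_nonpos_iff.1 (by linarith)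
  refine ⟨Submodule.span ℝ (range g), ?_, fun G hG => ?_⟩
  · rw [finrank_span_eq_card hlin, Fintype.card_fin]
  obtain ⟨x, rfl⟩ := (Submodule.mem_span_range_iff_exists_fun ℝ).1 hG
  refine ⟨?_, (hgL x).2.1, (hgL x).2.2, ?_⟩
  · have h1 : (∑ i, x i • g i) = fun y => ∑ i, x i • g i y := by
      funext y
      simp
    rw [h1]
    exact ContDiff.sum fun i _ => (hg1 i).const_smul (x i)
  have h1 := hup x
  have h2 := hlow x
  have h3 : √(en (∑ i, x i • g i)) ≤
      (√r + C * ε) / (1 - C * ε) * √(l2 (∑ i, x i • g i)) := by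
    refine h1.trans ?_
    rw [div_mul_eq_mul_div, le_div_iff₀ hpos, mul_assoc]
    refine mul_le_mul_of_nonneg_left ?_ (by positivity)
    rw [mul_comm]
    exact h2
  have h4 : √(en (∑ i, x i • g i)) ^ 2 ≤
      ((√r + C * ε) / (1 - C * ε) * √(l2 (∑ i, x i • g i))) ^ 2 :=
    pow_le_pow_left₀ (Real.sqrt_nonneg _) h3 2
  rw [mul_pow, Real.sq_sqrt (en_nonneg _), Real.sq_sqrt (l2_nonneg _)] at h4
  exact h4.trans (mul_le_mul_of_nonneg_right hε2.le (l2_nonneg _))

theorem lamC_eq {D : Set P} (hD : IsOpen D) (k : ℕ) : lamC D k = lamL D k := by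
  rcases Nat.eq_zero_or_pos k with rfl | hk
  · have e1 : {r : ℝ | ∃ V : Submodule ℝ (P → ℝ), Module.finrank ℝ V = 0 ∧
        ∀ f ∈ V, ContDiff ℝ 1 f ∧ HasCompactSupport f ∧ tsupport f ⊆ D ∧
          en f ≤ r * l2 f} = univ := by
      refine eq_univ_of_forall fun r => ⟨⊥, finrank_bot ℝ _, fun f hf => ?_⟩
      rw [Submodule.mem_bot] at hf
      subst hf
      refine ⟨contDiff_const, HasCompactSupport.zero, (LipC.zero D).2.2, ?_⟩
      have h1 := en_smul 0 (0 : P → ℝ)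
      have h2 := l2_smul 0 (0 : P → ℝ)
      simp only [zero_smul, ne_eq, OfNat.ofNat_ne_zero, not_false_eq_true, zero_pow,
        zero_mul] at h1 h2
      rw [h1, h2, mul_zero]
    have e2 : {r : ℝ | ∃ V : Submodule ℝ (P → ℝ), Module.finrank ℝ V = 0 ∧
        ∀ f ∈ V, LipC D f ∧ en f ≤ r * l2 f} = univ := by
      refine eq_univ_of_forall fun r => ⟨⊥, finrank_bot ℝ _, fun f hf => ?_⟩
      rw [Submodule.mem_bot] at hf
      subst hf
      refine ⟨LipC.zero D, ?_⟩
      have h1 := en_smul 0 (0 : P → ℝ)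
      have h2 := l2_smul 0 (0 : P → ℝ)
      simp only [zero_smul, ne_eq, OfNat.ofNat_ne_zero, not_false_eq_true, zero_pow,
        zero_mul] at h1 h2
      rw [h1, h2, mul_zero]
    unfold lamC lamL
    rw [e1, e2]
  have hsub : {r : ℝ | ∃ V : Submodule ℝ (P → ℝ), Module.finrank ℝ V = k ∧
      ∀ f ∈ V, ContDiff ℝ 1 f ∧ HasCompactSupport f ∧ tsupport f ⊆ D ∧ en f ≤ r * l2 f} ⊆
      {r : ℝ | ∃ V : Submodule ℝ (P → ℝ), Module.finrank ℝ V = k ∧
        ∀ f ∈ V, LipC D f ∧ en f ≤ r * l2 f} := by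
    rintro r ⟨V, hV, h⟩
    refine ⟨V, hV, fun f hf => ?_⟩
    obtain ⟨h1, h2, h3, h4⟩ := h f hf
    exact ⟨⟨h1.lipschitzWith_of_hasCompactSupport h2 one_ne_zero, h2, h3⟩, h4⟩
  have hbdd : BddBelow {r : ℝ | ∃ V : Submodule ℝ (P → ℝ), Module.finrank ℝ V = k ∧
      ∀ f ∈ V, LipC D f ∧ en f ≤ r * l2 f} := by
    refine ⟨0, ?_⟩
    rintro r ⟨V, hV, h⟩
    exact lamL_nonneg hk hV h
  unfold lamC lamL
  rcases Set.eq_empty_or_nonempty {r : ℝ | ∃ V : Submodule ℝ (P → ℝ),
      Module.finrank ℝ V = k ∧ ∀ f ∈ V, LipC D f ∧ en f ≤ r * l2 f} with he | hne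
  · have he' := subset_eq_empty hsub he
    rw [he, he']
  have hne' : {r : ℝ | ∃ V : Submodule ℝ (P → ℝ), Module.finrank ℝ V = k ∧
      ∀ f ∈ V, ContDiff ℝ 1 f ∧ HasCompactSupport f ∧ tsupport f ⊆ D ∧
        en f ≤ r * l2 f}.Nonempty := by
    obtain ⟨r, V, hV, h⟩ := hne
    exact ⟨r + 1, lam_step hD hk one_pos hV h⟩
  refine le_antisymm ?_ (csInf_le_csInf hbdd hne' hsub)
  refine le_csInf hne ?_
  rintro r ⟨V, hV, h⟩
  refine le_of_forall_pos_le_add fun η hη => ?_
  exact csInf_le (hbdd.mono hsub) (lam_step hD hk hη hV h)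

end Pool.Agent.MP4eed4eP
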